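import Pool.Agent.H.MP_83e36b_nt.tw.CDef
import Pool.Agent.H.MP_83e36b_nt.nr.TDefs
import Pool.Agent.H.MP_83e36b_nt.wa.Defs

/-! Towers of extensions of finite groups over number fields. -/

set_option autoImplicit false

open Polynomial NumberField IsDedekindDomain

namespace NF83

open CM83 NR83 WA83 DC83

/-- The homomorphisms `α : G → Gal(K/k)` for which the group `G` is built up in finitely many steps, in
any order, starting from an isomorphism `G → Gal(K/k)` (`gal`), by surjections `q : G → A` with kernel
* a product of symmetric groups (`sym`),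
* a group with a subnormal series whose factors are alternating groups `A_n`, `n ≥ 5`, `n ≠ 6`, or, more
  generally, the top of a Weyl tower (`alt`),
* the double cover `2.A_n`, `4 ≤ n ≤ 7`, which has a complement (`s` is a section of `q`) and is
  mapped isomorphically onto the subgroup `2.A_n` of `2.A_N` by a homomorphism `φ` defined on all of `G`
  (`dbl`). -/
inductive NTower {k : Type} [Field k] {K : Type} [Field K] [Algebra k K] :
    {G : Type} → [Group G] → (G →* (K ≃ₐ[k] K)) → Prop
  | gal {G : Type} [Group G] (α : G →* (K ≃ₐ[k] K)) (h : Function.Bijective α) : NTower α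
  | sym {G A : Type} [Group G] [Group A] (γ : A →* (K ≃ₐ[k] K)) (q : G →* A)
      (hq : Function.Surjective q) {J I : Type} [Finite J] [Finite I] [MulAction G J]
      [MulAction A I] (p : J → I) (h : SymKer q p) (hγ : NTower γ) : NTower (γ.comp q)
  | alt {G A : Type} [Group G] [Group A] (γ : A →* (K ≃ₐ[k] K)) (q : G →* A)
      (hq : Function.Surjective q) (hN : AltSeries q.ker ∨ Tower G q.ker) (hγ : NTower γ) :
      NTower (γ.comp q)
  | dbl {G A : Type} [Group G] [Group A] (γ : A →* (K ≃ₐ[k] K)) (q : G →* A) (s : A →* G)
      (hs : ∀ a, q (s a) = a) (n N : ℕ) (hn : 4 ≤ n) (hn7 : n ≤ 7) (hN : n ≤ N)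
      (φ : G →* CMat N) (hφ : KerDbl n N q φ) (hγ : NTower γ) : NTower (γ.comp q)

/-- Weak approximation for the variety `X : f(u, y) = 0`, `f_y(u, y) g(u, y) ≠ 0` over the number field
`k`: for every finite set `T` of finite places of `k` the set `X(k)` is dense in the product of the
`X(k_v)`, `v` an infinite place or `v` in `T`. -/
def WAFin (k : Type) [Field k] [NumberField k] {m : ℕ} (f g : (MvPolynomial (Fin m) k)[X]) :
    Prop :=
  ∀ T : Finset (HeightOneSpectrum (𝓞 k)), DenseRange (fun p : Pts f g (RingHom.id k) =>
      ((fun v : InfinitePlace k => mapPts (algebraMap k v.Completion) p),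
       (fun v : T => mapPts (algebraMap k (v.1.adicCompletion k)) p)))

/-- Weak approximation for the homogeneous spaces given by the homomorphism `α : G → Gal(K/k)`: for all
faithful semilinear actions of `G` on `K(x_1, ..., x_d)` over its action on `K`, and all smooth
hypersurface models `X : f(u, y) = 0`, `f_y(u, y) g(u, y) ≠ 0` of a field stably isomorphic to
`K(x_1, ..., x_d)^G`. -/
def WAFinFor {k : Type} [Field k] [NumberField k] {K : Type} [Field K] [Algebra k K] {G : Type}
    [Group G] (α : G →* (K ≃ₐ[k] K)) : Prop :=
  ∀ (d : ℕ) (β : G →* (RF K d ≃ₐ[k] RF K d)), SemiLin α β →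
    ∀ (m : ℕ) (f g : (MvPolynomial (Fin m) k)[X]) (F : Type) [Field F] [Algebra k F]
      (ξ : Fin m → F) (η : F), Generic f F ξ η → evP (algebraMap k F) ξ η g ≠ 0 →
      StablyIso k F (fixF β) → WAFin k f g

end NF83
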