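import Pool.Agent.H.MP_83e36b_nt.rg.XG
import Pool.Agent.H.MP_83e36b_nt.dc.Kr
import Pool.Agent.H.MP_83e36b_nt.dc.Perm

/-! Approximation of the local points for a general quadratic form; as td/Apx2.lean. -/

set_option autoImplicit false

open Matrix Polynomial SpinWA Topology DC83

namespace NF83

/-- near `(1, d)` a pair `(t, D)` satisfies `D ≠ - d t` -/
private theorem ApxG_box {K : Type} [NontriviallyNormedField K] [CharZero K] {d : K}
    (hd : d ≠ 0) :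
    ∃ U ∈ 𝓝 (1 : K), ∃ W ∈ 𝓝 d, ∀ t ∈ U, ∀ D ∈ W, D + d * t ≠ 0 := by
  have h1 : ContinuousAt (fun q : K × K => q.2 + d * q.1) ((1 : K), d) := by fun_prop
  have h2 : (fun q : K × K => q.2 + d * q.1) ((1 : K), d) ≠ 0 := by
    show d + d * 1 ≠ 0
    have h3 : d + d * 1 = 2 * d := by ring
    rw [h3]
    exact mul_ne_zero two_ne_zero hd
  have h3 := h1.eventually_ne h2
  rw [Filter.Eventually, mem_nhds_prod_iff] at h3
  obtain ⟨U, hU, W, hW, h4⟩ := h3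
  exact ⟨U, hU, W, hW, fun t ht D hD => h4 (Set.mk_mem_prod ht hD)⟩

/-- one place -/
private theorem ApxG_loc {K : Type} [NontriviallyNormedField K] [CompleteSpace K] [CharZero K]
    {n : ℕ} (hn : 2 ≤ n) {a : Fin n → K} {B J : Matrix (Fin n) (Fin n) K} (hJ : J.det ≠ 0)
    (hB : Bᵀ * J * B = hk a) (hBd : B.det ≠ 0) {Ω : Type} [Field Ω] [Algebra K Ω]
    {x : Fin n → Ω} {δ : Ω} (hδ : δ ≠ 0)
    (hax : AnWA.monicPoly (fun i => algebraMap K Ω (a i)) = ∏ i, (X - C (x i)))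
    (hBx : algebraMap K Ω B.det * δ = (vandermonde x).det) :
    ∃ U ∈ 𝓝 (a, B), ∀ q ∈ U, ∃ A : Matrix (Fin n) (Fin n) K, ∃ y : Fin n → Ω,
      vandermonde y = vandermonde x * A.map (algebraMap K Ω) ∧
      AnWA.monicPoly (fun i => algebraMap K Ω (q.1 i)) = ∏ i, (X - C (y i)) ∧
      (vandermonde y).det ≠ - (algebraMap K Ω q.2.det * δ) := by
  have hd : (hk a).det ≠ 0 := by
    rw [← hB, det_mul, det_mul, det_transpose]
    exact mul_ne_zero (mul_ne_zero hBd hJ) hBd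
  obtain ⟨U, hU, W, hW, hUW⟩ := ApxG_box hBd
  have h1 := kr hn a hd hU
  have hdet : Continuous fun M : Matrix (Fin n) (Fin n) K => M.det :=
    Continuous.matrix_det continuous_id
  have h2 : ∀ᶠ M in 𝓝 B, M.det ∈ W := hdet.continuousAt.eventually hW
  refine ⟨{q | (∃ A : Matrix (Fin n) (Fin n) K, A.det ∈ U ∧ A.det ≠ 0 ∧
      ∀ (Ω : Type) [Field Ω] [Algebra K Ω] (x : Fin n → Ω),
        AnWA.monicPoly (fun i => algebraMap K Ω (a i)) = ∏ i, (X - C (x i)) →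
        ∃ y : Fin n → Ω, vandermonde y = vandermonde x * A.map (algebraMap K Ω) ∧
          AnWA.monicPoly (fun i => algebraMap K Ω (q.1 i)) = ∏ i, (X - C (y i))) ∧
      q.2.det ∈ W}, ?_, ?_⟩
  · rw [nhds_prod_eq]
    exact (h1.prod_inl (𝓝 B)).and (h2.prod_inr (𝓝 a))
  · rintro q ⟨⟨A, hAU, hA0, hA⟩, hqW⟩
    obtain ⟨y, hy1, hy2⟩ := hA Ω x hax
    refine ⟨A, y, hy1, hy2, fun h => ?_⟩
    have h3 : algebraMap K Ω (q.2.det + B.det * A.det) * δ = 0 := by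
      rw [hy1, det_mul, ← hBx] at h
      have h4 : (A.map (algebraMap K Ω)).det = algebraMap K Ω A.det := by
        rw [RingHom.map_det]
        rfl
      rw [h4] at h
      rw [map_add, map_mul]
      linear_combination h
    rcases mul_eq_zero.1 h3 with h5 | h5
    · exact hUW _ hAU _ hqW ((map_eq_zero (algebraMap K Ω)).1 h5)
    · exact hδ h5

/-- the roots `y` are moved as the roots `x` -/
private theorem ApxG_act {K : Type} [Field K] {Ω : Type} [Field Ω] [Algebra K Ω] {n : ℕ}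
    (hn : 2 ≤ n) {x y : Fin n → Ω} {A : Matrix (Fin n) (Fin n) K}
    (h : vandermonde y = vandermonde x * A.map (algebraMap K Ω)) (τ : Ω ≃ₐ[K] Ω)
    (σ : Fin n → Fin n) (hτ : ∀ i, τ (x i) = x (σ i)) (i : Fin n) : τ (y i) = y (σ i) := by
  have h1 : ∀ i, y i = ∑ k : Fin n, x i ^ (k : ℕ) * algebraMap K Ω (A k ⟨1, by omega⟩) := by
    intro i
    have h2 := congrFun (congrFun h i) ⟨1, by omega⟩
    rw [vandermonde_apply, mul_apply] at h2
    rw [pow_one] at h2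
    rw [h2]
    exact Finset.sum_congr rfl fun k _ => rfl
  rw [h1 i, h1 (σ i), map_sum]
  refine Finset.sum_congr rfl fun k _ => ?_
  rw [map_mul, map_pow, hτ, AlgEquiv.commutes]

variable {kk : Type} [Field kk] [CharZero kk] [PlSys kk]

theorem approxG {m e n : ℕ} (hm : 1 ≤ m) (he : e ≤ 1) (hn : n = 2 * m + e) (a₀ : Fin n → kk)
    (h₀ : (hk a₀).det ≠ 0) (hstar : StarP kk m e (hk a₀).det (cls (hk a₀)))
    (S : Finset (Pk kk))
    (σ : ∀ v : Pk kk, (Ok v ≃ₐ[Cp v] Ok v) →* Equiv.Perm (Fin n)) (δ : ∀ v : Pk kk, Ok v)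
    (hδ : ∀ v, δ v ≠ 0) (a : ∀ v : Pk kk, Fin n → Cp v) (x : ∀ v : Pk kk, Fin n → Ok v)
    (B : ∀ v : Pk kk, Matrix (Fin n) (Fin n) (Cp v)) (hx : ∀ v, Function.Injective (x v))
    (hax : ∀ v, AnWA.monicPoly (fun i => algebraMap (Cp v) (Ok v) (a v i)) =
      ∏ i, (X - C (x v i))) (hσ : ∀ v τ i, τ (x v i) = x v (σ v τ i))
    (hB : ∀ v, (B v)ᵀ * (hk a₀).map (em v) * B v = hk (a v)) (hBd : ∀ v, (B v).det ≠ 0)
    (hBx : ∀ v, algebraMap (Cp v) (Ok v) (B v).det * δ v = (vandermonde (x v)).det) :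
    ∃ (b : Fin n → kk) (C' : Matrix (Fin n) (Fin n) kk), C'ᵀ * hk a₀ * C' = hk b ∧ C'.det ≠ 0 ∧
      ∀ v ∈ S, ∃ y : Fin n → Ok v,
        AnWA.monicPoly (fun i => algebraMap (Cp v) (Ok v) (em v (b i))) =
          ∏ i, (X - C (y i)) ∧ (∀ τ i, τ (y i) = y (σ v τ i)) ∧
        (vandermonde y).det ≠ - (algebraMap (Cp v) (Ok v) (em v C'.det) * δ v) := by
  subst hn
  have hJ : ∀ v : Pk kk, ((hk a₀).map (em v)).det ≠ 0 := by
    intro v
    have h1 : ((hk a₀).map (em v)).det = em v (hk a₀).det := by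
      rw [RingHom.map_det]
      rfl
    rw [h1]
    exact (map_ne_zero (em v)).2 h₀
  have hloc := fun v : Pk kk => ApxG_loc (K := Cp v) (Ω := Ok v) (by omega) (hJ v) (hB v) (hBd v)
    (hδ v) (hax v) (hBx v)
  choose U hU hUp using hloc
  obtain ⟨b, C', h1, h2, h3⟩ := x_waG he a₀ h₀ hstar S
    (fun v => (a v, B v)) (fun v => ⟨hB v, hBd v⟩) U (fun v _ => hU v)
  refine ⟨b, C', h1, h2, fun v hv => ?_⟩
  obtain ⟨A, y, hy1, hy2, hy3⟩ := hUp v _ (h3 v hv)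
  refine ⟨y, hy2, fun τ i => ApxG_act (by omega) hy1 τ (σ v τ) (hσ v τ) i, ?_⟩
  have h4 : (C'.map (em v)).det = em v C'.det := by
    rw [RingHom.map_det]
    rfl
  rw [← h4]
  exact hy3

end NF83
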