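import Pool.Agent.H.MP_83e36b_nt.nf.Base
import Pool.Agent.H.MP_83e36b_nt.nf.ZWa
import Pool.Agent.H.MP_83e36b_nt.sp.CFwd
import Pool.Agent.H.MP_83e36b_nt.sp.CBwd
import Pool.Agent.H.MP_83e36b_nt.sp.CCls
import Pool.Agent.H.MP_83e36b_nt.sp.XLoc
import Pool.Agent.H.MP_83e36b_nt.dc.KrA

/-! The base point, first duality only, any degree `2 m + e`. -/

set_option autoImplicit false

open Topology Matrix Polynomial SpinWA DC83

namespace NF83

private theorem BP4_e {R : Type*} [CommRing R] {n : ℕ} (a : Fin n → R) (k : Fin n) :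
    cmp a ^ (k : ℕ) *ᵥ e0 R n = Pi.single k 1 := by
  have h := kryM_cmp a
  funext i
  have h1 := congrFun (congrFun h i) k
  unfold kryM at h1
  rw [Matrix.of_apply] at h1
  rw [h1, Matrix.one_apply, Pi.single_apply]

private theorem BP4_sum_e0 {R : Type*} [CommRing R] {n : ℕ} (a c : Fin n → R) :
    (∑ j, c j • cmp a ^ (j : ℕ)) *ᵥ e0 R n = c := by
  rw [Matrix.sum_mulVec]
  have h1 : ∀ k : Fin n, (c k • cmp a ^ (k : ℕ)) *ᵥ e0 R n = c k • Pi.single k 1 := fun k => by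
    rw [Matrix.smul_mulVec, BP4_e]
  rw [Finset.sum_congr rfl fun k _ => h1 k]
  ext i
  rw [Finset.sum_apply, Finset.sum_eq_single i]
  · simp
  · intro j _ hj
    simp [hj.symm]
  · intro h
    exact absurd (Finset.mem_univ _) h

private theorem BP4_comm {R : Type*} [CommRing R] {n : ℕ} (a c : Fin n → R) :
    Commute (∑ j, c j • cmp a ^ (j : ℕ)) (cmp a) := by
  apply Commute.sum_left
  intro k _
  exact ((Commute.refl (cmp a)).pow_left _).smul_left _

/-- a matrix which commutes with the companion matrix is determined by its first column -/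
private theorem BP4_repr {R : Type*} [CommRing R] {n : ℕ} (a : Fin n → R)
    {M : Matrix (Fin n) (Fin n) R} (h : Commute M (cmp a)) :
    M = ∑ j, (M *ᵥ e0 R n) j • cmp a ^ (j : ℕ) := by
  obtain ⟨y, hy⟩ := commute_cmp a h.eq
  have h1 : M *ᵥ e0 R n = y := by rw [hy, BP4_sum_e0]
  rw [h1]
  exact hy

/-- a matrix with a cyclic vector is killed only by its characteristic polynomial -/
private theorem BP4_cpc {L : Type*} [Field L] {n : ℕ} {M : Matrix (Fin n) (Fin n) L}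
    (hM : (kryM M).det ≠ 0) (b : Fin n → L) (hb : aeval M (AnWA.monicPoly b) = 0) :
    cpc M = b := by
  have hu : IsUnit (kryM M).det := isUnit_iff_ne_zero.2 hM
  have h1 : aeval M (AnWA.monicPoly (cpc M)) = 0 := by
    have h2 : ∀ k : ℕ, M ^ k * kryM M = kryM M * cmp (cpc M) ^ k := by
      intro k
      induction k with
      | zero => rw [pow_zero, pow_zero, Matrix.one_mul, Matrix.mul_one]
      | succ k ih =>
        rw [pow_succ, Matrix.mul_assoc, mul_kryM, ← Matrix.mul_assoc, ih, Matrix.mul_assoc,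
          ← pow_succ]
    have h3 : ∀ p : L[X], aeval M p * kryM M = kryM M * aeval (cmp (cpc M)) p := by
      intro p
      induction p using Polynomial.induction_on' with
      | add p q hp hq => rw [map_add, map_add, add_mul, mul_add, hp, hq]
      | monomial k d =>
        rw [aeval_monomial, aeval_monomial, mul_assoc, h2, ← mul_assoc, ← mul_assoc,
          Algebra.commutes]
    have h4 := h3 (AnWA.monicPoly (cpc M))
    rw [aeval_cmp, mul_zero] at h4
    have h5 : aeval M (AnWA.monicPoly (cpc M)) * kryM M * (kryM M)⁻¹ = 0 := by rw [h4, zero_mul]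
    rwa [mul_assoc, Matrix.mul_nonsing_inv _ hu, mul_one] at h5
  have h2 : ∀ a : Fin n → L, aeval M (AnWA.monicPoly a) = M ^ n + ∑ i, a i • M ^ (i : ℕ) := by
    intro a
    unfold AnWA.monicPoly
    rw [map_add, map_pow, aeval_X, map_sum]
    congr 1
    refine Finset.sum_congr rfl fun i _ => ?_
    rw [map_mul, aeval_C, map_pow, aeval_X, Algebra.smul_def]
  rw [h2] at h1 hb
  have h3 : ∑ i, (cpc M - b) i • M ^ (i : ℕ) = 0 := by
    have h4 : ∑ i, (cpc M - b) i • M ^ (i : ℕ) =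
        ∑ i, cpc M i • M ^ (i : ℕ) - ∑ i, b i • M ^ (i : ℕ) := by
      rw [← Finset.sum_sub_distrib]
      refine Finset.sum_congr rfl fun i _ => ?_
      rw [Pi.sub_apply, sub_smul]
    rw [h4]
    have h5 : ∑ i, cpc M i • M ^ (i : ℕ) - ∑ i, b i • M ^ (i : ℕ) =
        (M ^ n + ∑ i, cpc M i • M ^ (i : ℕ)) - (M ^ n + ∑ i, b i • M ^ (i : ℕ)) := by abel
    rw [h5, h1, hb, sub_zero]
  have h6 : kryM M *ᵥ (cpc M - b) = 0 := by
    have h7 := congrArg (fun A : Matrix (Fin n) (Fin n) L => A *ᵥ e0 L n) h3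
    simp only [Matrix.zero_mulVec, Matrix.sum_mulVec, Matrix.smul_mulVec] at h7
    rw [← h7]
    ext i
    rw [Finset.sum_apply]
    simp only [mulVec, dotProduct, kryM, Matrix.of_apply, Pi.smul_apply, smul_eq_mul]
    refine Finset.sum_congr rfl fun j _ => ?_
    rw [mul_comm]
  have h8 := Matrix.eq_zero_of_mulVec_eq_zero hM h6
  exact sub_eq_zero.1 h8

/-- the trace forms of two generators of the same algebra -/
private theorem BP4_form {L : Type*} [Field L] {n : ℕ} (a c : Fin n → L)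
    (hT : (kryM (∑ j, c j • cmp a ^ (j : ℕ))).det ≠ 0) :
    (kryM (∑ j, c j • cmp a ^ (j : ℕ)))ᵀ * hk a * kryM (∑ j, c j • cmp a ^ (j : ℕ)) =
      hk (cpc (∑ j, c j • cmp a ^ (j : ℕ))) := by
  obtain ⟨M, hM⟩ : ∃ M, M = ∑ j, c j • cmp a ^ (j : ℕ) := ⟨_, rfl⟩
  have hcomm : Commute M (cmp a) := by rw [hM]; exact BP4_comm a c
  rw [← hM] at hT ⊢
  have hp : ∀ k : Fin n, M ^ (k : ℕ) = ∑ i, kryM M i k • cmp a ^ (i : ℕ) := by
    intro k
    exact BP4_repr a (hcomm.pow_left _)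
  ext i j
  have h1 : hk (cpc M) i j = (M ^ (i : ℕ) * M ^ (j : ℕ)).trace := by
    simp only [hk, Matrix.of_apply]
    rw [psum_cpc hT, pow_add]
  rw [h1, hp i, hp j, Finset.sum_mul]
  simp only [Finset.mul_sum, Matrix.trace_sum, smul_mul_assoc, mul_smul_comm, Matrix.trace_smul,
    ← pow_add, smul_eq_mul]
  rw [Matrix.mul_apply]
  simp only [Matrix.mul_apply, Matrix.transpose_apply, hk, Matrix.of_apply, psum, Finset.sum_mul]
  rw [Finset.sum_comm]
  refine Finset.sum_congr rfl fun k _ => Finset.sum_congr rfl fun l _ => ?_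
  ring

/-- the conditions on the polynomial -/
private def BP4_Good {L : Type*} [Field L] {n : ℕ} (b : Fin n → L) : Prop :=
  (hk b).det ≠ 0 ∧ (kryM (cmS b)).det ≠ 0

private theorem BP4_Good_map {K L : Type*} [Field K] [Field L] (φ : K →+* L) {n : ℕ}
    (b : Fin n → K) (h : BP4_Good fun i => φ (b i)) : BP4_Good b := by
  obtain ⟨h1, h2⟩ := h
  have hS : cmS (fun i => φ (b i)) = (cmS b).map φ := (cmS_map φ b).symm
  refine ⟨?_, ?_⟩
  · intro h0
    rw [← hk_det_map, h0, map_zero] at h1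
    exact h1 rfl
  · intro h0
    rw [hS, ← kryM_det_map, h0, map_zero] at h2
    exact h2 rfl

section
variable {K : Type} [NontriviallyNormedField K] [CompleteSpace K] [CharZero K]

omit [CompleteSpace K] [CharZero K] in
private theorem BP4_det {X : Type} [TopologicalSpace X] {m : ℕ}
    {f : X → Matrix (Fin m) (Fin m) K} {x : X} (h : ContinuousAt f x) :
    ContinuousAt (fun y => (f y).det) x :=
  (Continuous.matrix_det continuous_id).continuousAt.comp h

omit [CompleteSpace K] in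
private theorem BP4_open {n : ℕ} (b : Fin n → K)
    (h : BP4_Good b) : ∀ᶠ b' in 𝓝 b, BP4_Good b' := by
  obtain ⟨h1, h2⟩ := h
  have c1 : ContinuousAt (fun b : Fin n → K => (hk b).det) b :=
    BP4_det continuous_hk.continuousAt
  have cS : ContinuousAt (fun b : Fin n → K => cmS b) b := continuousAt_cmS h1
  have c2 : ContinuousAt (fun b : Fin n → K => (kryM (cmS b)).det) b :=
    BP4_det (ContinuousAt.comp' continuous_kryM.continuousAt cS)
  filter_upwards [c1.eventually_ne h1, c2.eventually_ne h2] with b' e1 e2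
  exact ⟨e1, e2⟩

omit [CompleteSpace K] in
/-- good polynomials are dense -/
private theorem BP4_dense {n : ℕ} (b₀ : Fin n → K)
    {V : Set (Fin n → K)} (hV : V ∈ 𝓝 b₀) : ∃ b ∈ V, BP4_Good b := by
  have φ : ℚ →+* K := Rat.castHom K
  obtain ⟨p0, hp1, hp2⟩ := exists_point1 n
  obtain ⟨Φ, hΦ, hpoly⟩ := poly1 p0 hp1 hp2
  obtain ⟨b₁, hb₁V, hb₁⟩ := exists_near_ne φ Φ hΦ b₀ hV
  exact ⟨b₁, hb₁V, hpoly K φ b₁ hb₁⟩

end

/-- the map of `θ` -/
private theorem BP4_theta_map {K L : Type*} [Field K] [Field L] (φ : K →+* L) {n : ℕ}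
    (a c : Fin n → K) : (∑ j, c j • cmp a ^ (j : ℕ)).map φ =
      ∑ j, φ (c j) • (cmp fun i => φ (a i)) ^ (j : ℕ) := by
  rw [← RingHom.mapMatrix_apply, map_sum]
  refine Finset.sum_congr rfl fun j _ => ?_
  have h1 : φ.mapMatrix (c j • cmp a ^ (j : ℕ)) = φ (c j) • φ.mapMatrix (cmp a ^ (j : ℕ)) := by
    ext i k
    simp only [RingHom.mapMatrix_apply, Matrix.map_apply, Matrix.smul_apply, smul_eq_mul, map_mul]
  rw [h1, map_pow, RingHom.mapMatrix_apply, cmp_map]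

/-- steps (1) and (2) -/
private theorem BP4_step {kk : Type} [Field kk] [CharZero kk] [PlSys kk] {n : ℕ} (hn : 2 ≤ n)
    (a₀ : Fin n → kk) (h : (hk a₀).det ≠ 0) :
    ∃ c : Fin n → kk,
      (kryM (∑ j, c j • cmp a₀ ^ (j : ℕ))).det ≠ 0 ∧
      BP4_Good (cpc (∑ j, c j • cmp a₀ ^ (j : ℕ))) := by
  obtain ⟨φ, hφ⟩ : ∃ φ : kk →+* Cp (p0 kk), φ = em (p0 kk) := ⟨_, rfl⟩
  obtain ⟨b₀, hb₀⟩ : ∃ b₀ : Fin n → Cp (p0 kk), b₀ = fun i => φ (a₀ i) :=
    ⟨_, rfl⟩
  have hd : (hk b₀).det ≠ 0 := by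
    rw [hb₀, ← hk_det_map]
    exact (map_ne_zero φ).2 h
  have hcont : Continuous fun c : Fin n → Cp (p0 kk) =>
      ∑ j, c j • cmp b₀ ^ (j : ℕ) :=
    continuous_finsetSum _ fun j _ => (continuous_apply j).smul continuous_const
  have hcd : Continuous fun c : Fin n → Cp (p0 kk) =>
      (kryM (∑ j, c j • cmp b₀ ^ (j : ℕ))).det :=
    Continuous.matrix_det (continuous_kryM.comp hcont)
  have h0 : (∑ j : Fin n, (if (j : ℕ) = 1 then (1 : Cp (p0 kk)) else 0) •
      cmp b₀ ^ (j : ℕ)) = cmp b₀ := by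
    rw [Finset.sum_eq_single (⟨1, by omega⟩ : Fin n)]
    · simp
    · intro j _ hj
      rw [if_neg (fun h => hj (Fin.ext h)), zero_smul]
    · intro h
      exact absurd (Finset.mem_univ _) h
  have hU : {c : Fin n → Cp (p0 kk) |
      (kryM (∑ j, c j • cmp b₀ ^ (j : ℕ))).det ≠ 0} ∈
      𝓝 (fun i : Fin n => if (i : ℕ) = 1 then (1 : Cp (p0 kk)) else 0) := by
    refine hcd.continuousAt.eventually_ne ?_
    rw [h0, kryM_cmp, Matrix.det_one]
    exact one_ne_zero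
  obtain ⟨b₂, hb₂, hgood⟩ := BP4_dense b₀ (exists_theta hn b₀ hd hU)
  obtain ⟨c, hc, hcb⟩ := hb₂
  have hc' : (kryM (∑ j, c j • cmp b₀ ^ (j : ℕ))).det ≠ 0 := hc
  have hcp : cpc (∑ j, c j • cmp b₀ ^ (j : ℕ)) = b₂ := BP4_cpc hc' b₂ hcb
  have hopen : ∀ᶠ d : Fin n → Cp (p0 kk) in 𝓝 c, (kryM (∑ j, d j • cmp b₀ ^ (j : ℕ))).det ≠ 0 ∧
      BP4_Good (cpc (∑ j, d j • cmp b₀ ^ (j : ℕ))) := by
    have e1 : ∀ᶠ d : Fin n → Cp (p0 kk) in 𝓝 c, (kryM (∑ j, d j • cmp b₀ ^ (j : ℕ))).det ≠ 0 :=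
      hcd.continuousAt.eventually_ne hc'
    have e2 : ∀ᶠ d : Fin n → Cp (p0 kk) in 𝓝 c, BP4_Good (cpc (∑ j, d j • cmp b₀ ^ (j : ℕ))) := by
      have h1 : Filter.Tendsto (fun d : Fin n → Cp (p0 kk) =>
          cpc (∑ j, d j • cmp b₀ ^ (j : ℕ))) (𝓝 c) (𝓝 b₂) := by
        have h2 := (continuous_cpc.comp hcont).tendsto c
        simp only [Function.comp_apply] at h2
        rw [hcp] at h2
        exact h2
      exact h1.eventually (BP4_open b₂ hgood)
    exact e1.and e2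
  obtain ⟨W, hW⟩ : ∃ W : Set (Fin n → Cp (p0 kk)),
      W = {d : Fin n → Cp (p0 kk) | (kryM (∑ j, d j • cmp b₀ ^ (j : ℕ))).det ≠ 0 ∧
        BP4_Good (cpc (∑ j, d j • cmp b₀ ^ (j : ℕ)))} := ⟨_, rfl⟩
  have hWc : W ∈ 𝓝 c := by
    rw [hW]
    exact hopen
  classical
  obtain ⟨r, hr⟩ := wa_fun {p0 kk}
    (Function.update (fun (v : Pk kk) (_ : Fin n) => (0 : Cp v)) (p0 kk) c)
    (Function.update (fun v : Pk kk => (Set.univ : Set (Fin n → Cp v)))
      (p0 kk) W) (by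
      intro v hv
      rw [Finset.mem_singleton] at hv
      subst hv
      rw [Function.update_self, Function.update_self]
      exact hWc)
  have hr1 := hr (p0 kk) (Finset.mem_singleton_self _)
  rw [Function.update_self, hW] at hr1
  obtain ⟨hr2, hr3⟩ := hr1
  refine ⟨r, ?_, ?_⟩
  · intro h1
    apply hr2
    rw [hb₀, ← hφ, ← BP4_theta_map φ, ← kryM_det_map, h1, map_zero]
  · refine BP4_Good_map φ _ ?_
    have h2 : (fun i => φ (cpc (∑ j, r j • cmp a₀ ^ (j : ℕ)) i)) =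
        cpc (∑ j, φ (r j) • cmp b₀ ^ (j : ℕ)) := by
      funext i
      rw [cpc_map φ, BP4_theta_map φ, hb₀]
    rw [h2, hφ]
    exact hr3

/-- Proof: a simplification of the proof of `base_point` in rf/BP.lean (its private lemmas are
copied as `BP4_...`, for `m` instead of `1 + 1 + 1`): only the two conditions `(hk b).det ≠ 0` and
`(kryM (cmS b)).det ≠ 0` are needed for `b = cpc (∑ j, c j • cmp a₀ ^ j)` (`exists_point1`, `poly1`,
`exists_near_ne`; openness by `continuousAt_cmS`), together with `(kryM (∑ j, c j • cmp a₀ ^ j)).det ≠ 0`;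
`c : Fin (2 * m + e) → kk`.  Then `BP_form`, `fwd` for `b`: `g`; `cls_gam`, `det_gam`. -/
theorem base_point4 {kk : Type} [Field kk] [CharZero kk] [PlSys kk] {m e : ℕ} (hm : 1 ≤ m)
    (he : e ≤ 1) (a₀ : Fin (2 * m + e) → kk) (h : (hk a₀).det ≠ 0) :
    ∃ (g : Fin m → kk) (η : kk), (hk g).det ≠ 0 ∧ η ≠ 0 ∧ cf g 0 = (hk a₀).det * η ^ 2 ∧
      e • cl 1 + cls ((2 : kk) • hk g) + cls ((-2 : kk) • hk1 g) = cls (hk a₀) := by
  obtain ⟨c, hT, hb1, hb2⟩ := BP4_step (by omega) a₀ h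
  have hform := BP4_form a₀ c hT
  obtain ⟨b, hb⟩ : ∃ b, b = cpc (∑ j, c j • cmp a₀ ^ (j : ℕ)) := ⟨_, rfl⟩
  obtain ⟨T, hTd⟩ : ∃ T, T = kryM (∑ j, c j • cmp a₀ ^ (j : ℕ)) := ⟨_, rfl⟩
  rw [← hb] at hb1 hb2
  rw [← hb, ← hTd] at hform
  rw [← hTd] at hT
  have t2 : (2 : kk) ≠ 0 := two_ne_zero
  obtain ⟨g, y, hgram, hdet, hconj⟩ := fwd he b hb1 hb2
  have hgd : (gamM (dbl e g)).det ≠ 0 := (det_hk_dbl he g).1 hdet
  have hdg := det_gam he g
  have hg0 : cf g 0 ≠ 0 := by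
    intro h0
    apply hgd
    rw [hdg, h0, mul_zero]
  have hb3 : (hk g).det ≠ 0 := by
    intro h0
    apply hgd
    rw [hdg, h0, mul_zero, zero_mul, zero_pow two_ne_zero, zero_mul]
  -- the classes
  have hcl1 : cls (hk a₀) = (e : ℕ) • cl 1 + cls ((2 : kk) • hk g) + cls ((-2 : kk) • hk1 g) := by
    rw [← cls_gam he g hb3 hg0]
    refine cls_cong t2 (hk_transpose a₀) h ⟨T * kryM (cmS b), ?_, ?_⟩
    · rw [Matrix.det_mul]
      exact mul_ne_zero hT hb2
    · rw [← hgram, ← hform, Matrix.transpose_mul]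
      simp only [Matrix.mul_assoc]
  -- the determinants
  obtain ⟨s, hs⟩ : ∃ s, s = (kryM (cmS b)).det * T.det := ⟨_, rfl⟩
  have hs0 : s ≠ 0 := by
    rw [hs]
    exact mul_ne_zero hb2 hT
  obtain ⟨w, hw⟩ : ∃ w, w = 2 ^ m * (hk g).det * cf g 0 ^ e := ⟨_, rfl⟩
  have hw0 : w ≠ 0 := by
    rw [hw]
    exact mul_ne_zero (mul_ne_zero (pow_ne_zero _ t2) hb3) (pow_ne_zero _ hg0)
  have hdets : w ^ 2 * cf g 0 = s ^ 2 * (hk a₀).det := by
    rw [hw, ← hdg, ← hgram, ← hform, hs]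
    simp only [Matrix.det_mul, Matrix.det_transpose]
    ring
  refine ⟨g, s / w, hb3, div_ne_zero hs0 hw0, ?_, hcl1.symm⟩
  rw [div_pow, mul_div_assoc', eq_div_iff (pow_ne_zero 2 hw0), mul_comm (cf g 0), hdets, mul_comm]

end NF83
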