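import Pool.Agent.H.MP_83e36b_nt.nf.So

/-! Weak approximation for the isotropic vectors of a quadratic form. -/

set_option autoImplicit false

open Topology Matrix SpinWA

namespace NF83

private theorem wit1_nondeg {K : Type*} [Field K] {n : ℕ}
    {Q : Matrix (Fin n) (Fin n) K} (hQ : Qᵀ = Q) (hd : Q.det ≠ 0) {x : Fin n → K}
    (hx : x ≠ 0) : ∃ a : Fin n → K, x ⬝ᵥ (Q *ᵥ a) ≠ 0 := by
  by_contra hcon
  push Not at hcon
  apply hx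
  have h1 : Q *ᵥ x = 0 := by
    ext i
    have h2 := hcon (Pi.single i 1)
    rw [wrefl_symm hQ, single_one_dotProduct] at h2
    exact h2
  exact eq_zero_of_mulVec_eq_zero hd h1

private theorem wit1_isom {K : Type*} [Field K] {n : ℕ}
    {Q O : Matrix (Fin n) (Fin n) K} (hO : Oᵀ * Q * O = Q) (x : Fin n → K) :
    qf Q (O *ᵥ x) = qf Q x := by
  unfold qf
  have h1 : (O *ᵥ x) ⬝ᵥ (Q *ᵥ (O *ᵥ x)) = x ⬝ᵥ ((Oᵀ * Q * O) *ᵥ x) := by
    rw [mulVec_mulVec, dotProduct_comm, dotProduct_mulVec, ← mulVec_transpose,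
      dotProduct_comm, mulVec_mulVec, Matrix.mul_assoc]
  rw [h1, hO]

/-- Two nonzero isotropic vectors are exchanged by a product of two reflections.  Proof: find `y` with
`qf Q y ≠ 0`, `x ⬝ᵥ Q *ᵥ (rf Q y *ᵥ x₀) ≠ 0`; then `z = rf Q y *ᵥ x₀ - x`,
`qf Q z = - 2 * (x ⬝ᵥ Q *ᵥ (rf Q y *ᵥ x₀)) ≠ 0`, `rf_swap`.  If `x ⬝ᵥ Q *ᵥ x₀ ≠ 0` take `y = w`
(`rf_fix`).  If `x ⬝ᵥ Q *ᵥ x₀ = 0`: there are `a`, `b` with `x₀ ⬝ᵥ Q *ᵥ a ≠ 0`, `x ⬝ᵥ Q *ᵥ b ≠ 0` (`Q` is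
nondegenerate); one of `a`, `b`, `a + b` is a `y₀` with `x₀ ⬝ᵥ Q *ᵥ y₀ ≠ 0`, `x ⬝ᵥ Q *ᵥ y₀ ≠ 0`; if
`qf Q y₀ ≠ 0` take `y = y₀`, otherwise `y = y₀ + x₀` (`qf Q y = 2 * (x₀ ⬝ᵥ Q *ᵥ y₀) ≠ 0`);
`rf Q y *ᵥ x₀ = x₀ - (2 * (x₀ ⬝ᵥ Q *ᵥ y) / qf Q y) • y` (see `wrefl_mulVec` in sp/WRefl.lean). -/
theorem exists_rf2 {K : Type*} [Field K] (h2 : (2 : K) ≠ 0) {n : ℕ}
    {Q : Matrix (Fin n) (Fin n) K} (hQ : Qᵀ = Q) (hd : Q.det ≠ 0) {x₀ x w : Fin n → K}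
    (hx₀ : x₀ ≠ 0) (hx : x ≠ 0) (hq₀ : qf Q x₀ = 0) (hq : qf Q x = 0)
    (hw : w ⬝ᵥ (Q *ᵥ x₀) = 0) (hqw : qf Q w ≠ 0) :
    ∃ y z : Fin n → K, qf Q y ≠ 0 ∧ qf Q z ≠ 0 ∧ (rf Q z * rf Q y) *ᵥ x₀ = x := by
  obtain ⟨y, hy, hyx⟩ : ∃ y : Fin n → K, qf Q y ≠ 0 ∧ x ⬝ᵥ (Q *ᵥ (rf Q y *ᵥ x₀)) ≠ 0 := by
    by_cases h0 : x ⬝ᵥ (Q *ᵥ x₀) = 0
    · obtain ⟨a, ha⟩ := wit1_nondeg hQ hd hx₀
      obtain ⟨b, hb⟩ := wit1_nondeg hQ hd hx
      obtain ⟨y₀, hy1, hy2⟩ : ∃ y₀ : Fin n → K, x₀ ⬝ᵥ (Q *ᵥ y₀) ≠ 0 ∧ x ⬝ᵥ (Q *ᵥ y₀) ≠ 0 := by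
        by_cases h1 : x ⬝ᵥ (Q *ᵥ a) = 0
        · by_cases h3 : x₀ ⬝ᵥ (Q *ᵥ b) = 0
          · refine ⟨a + b, ?_, ?_⟩
            · rw [mulVec_add, dotProduct_add, h3, add_zero]
              exact ha
            · rw [mulVec_add, dotProduct_add, h1, zero_add]
              exact hb
          · exact ⟨b, h3, hb⟩
        · exact ⟨a, ha, h1⟩
      obtain ⟨y, hy, hy1, hy2⟩ : ∃ y : Fin n → K, qf Q y ≠ 0 ∧ x₀ ⬝ᵥ (Q *ᵥ y) ≠ 0 ∧
          x ⬝ᵥ (Q *ᵥ y) ≠ 0 := by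
        by_cases h1 : qf Q y₀ = 0
        · refine ⟨y₀ + x₀, ?_, ?_, ?_⟩
          · have h3 : qf Q (y₀ + x₀) = qf Q y₀ + qf Q x₀ + 2 * (x₀ ⬝ᵥ (Q *ᵥ y₀)) := by
              unfold qf
              rw [mulVec_add, dotProduct_add, add_dotProduct, add_dotProduct,
                wrefl_symm hQ y₀ x₀]
              ring
            rw [h3, h1, hq₀, add_zero, zero_add]
            exact mul_ne_zero h2 hy1
          · have h3 : x₀ ⬝ᵥ (Q *ᵥ x₀) = 0 := hq₀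
            rw [mulVec_add, dotProduct_add, h3, add_zero]
            exact hy1
          · rw [mulVec_add, dotProduct_add, h0, add_zero]
            exact hy2
        · exact ⟨y₀, h1, hy1, hy2⟩
      refine ⟨y, hy, ?_⟩
      rw [wrefl_mulVec, mulVec_sub, mulVec_smul, dotProduct_sub, dotProduct_smul, h0, zero_sub,
        smul_eq_mul]
      exact neg_ne_zero.2 (mul_ne_zero (mul_ne_zero (div_ne_zero h2 hy) hy1) hy2)
    · refine ⟨w, hqw, ?_⟩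
      rw [rf_fix hQ hw]
      exact h0
  have hq1 : qf Q (rf Q y *ᵥ x₀) = 0 := by
    rw [wit1_isom (rf_isom hQ hy), hq₀]
  have hz : qf Q (rf Q y *ᵥ x₀ - x) ≠ 0 := by
    rw [wrefl_qf_sub hQ, hq1, hq, add_zero, zero_sub, wrefl_symm hQ]
    exact neg_ne_zero.2 (mul_ne_zero h2 hyx)
  refine ⟨y, rf Q y *ᵥ x₀ - x, hy, hz, ?_⟩
  rw [← mulVec_mulVec]
  exact rf_swap hQ (by rw [hq1, hq]) hz

/-- Proof: `exists_rf2` for every `v ∈ S`: `O v = rf z * rf y` (`O v = 1` for the other `v`), `rf_isom`,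
`rf_det`; `so_wa` of nf/So.lean for the neighbourhoods `{M | M *ᵥ (em v ∘ x₀) ∈ U v}` of `O v`: `O'`;
`x' = O' *ᵥ x₀`.  (`x' ≠ 0`: `O'` is invertible.) -/
theorem iso_wa {kk : Type} [Field kk] [CharZero kk] [PlSys kk] {n : ℕ}
    {Q : Matrix (Fin n) (Fin n) kk} (hQ : Qᵀ = Q) (hd : Q.det ≠ 0) {x₀ w : Fin n → kk}
    (hx₀ : x₀ ≠ 0) (hq₀ : qf Q x₀ = 0) (hw : w ⬝ᵥ (Q *ᵥ x₀) = 0) (hqw : qf Q w ≠ 0)
    (S : Finset (Pk kk)) (x : ∀ v : Pk kk, Fin n → Cp v) (hx : ∀ v ∈ S, x v ≠ 0)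
    (hq : ∀ v ∈ S, qf (Q.map (em v)) (x v) = 0) (U : ∀ v : Pk kk, Set (Fin n → Cp v))
    (hU : ∀ v ∈ S, U v ∈ 𝓝 (x v)) :
    ∃ x' : Fin n → kk, x' ≠ 0 ∧ qf Q x' = 0 ∧ ∀ v ∈ S, (fun i => em v (x' i)) ∈ U v := by
  classical
  have hQv : ∀ v : Pk kk, (Q.map (em v))ᵀ = Q.map (em v) := fun v => by rw [← transpose_map, hQ]
  have hdv : ∀ v : Pk kk, (Q.map (em v)).det ≠ 0 := by
    intro v
    have h1 : (Q.map (em v)).det = em v Q.det := by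
      rw [RingHom.map_det]
      rfl
    rw [h1]
    exact (map_ne_zero _).2 hd
  have hdot : ∀ (v : Pk kk) (a b : Fin n → kk),
      (fun i => em v (a i)) ⬝ᵥ (Q.map (em v) *ᵥ fun i => em v (b i)) = em v (a ⬝ᵥ (Q *ᵥ b)) := by
    intro v a b
    simp only [dotProduct, mulVec, map_sum, map_mul, Matrix.map_apply]
  have hO : ∀ v : Pk kk, ∃ O : Matrix (Fin n) (Fin n) (Cp v), v ∈ S →
      (Oᵀ * Q.map (em v) * O = Q.map (em v) ∧ O.det = 1 ∧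
        O *ᵥ (fun i => em v (x₀ i)) = x v) := by
    intro v
    by_cases hv : v ∈ S
    · have hx₀v : (fun i => em v (x₀ i) : Fin n → Cp v) ≠ 0 := by
        intro h
        apply hx₀
        ext i
        have h1 := congrFun h i
        exact (map_eq_zero (em v)).1 h1
      obtain ⟨y, z, hy, hz, hyz⟩ := exists_rf2 (two_ne_zero : (2 : Cp v) ≠ 0) (hQv v) (hdv v)
        (x₀ := fun i => em v (x₀ i)) (x := x v) (w := fun i => em v (w i)) hx₀v (hx v hv)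
        (by
          show _ ⬝ᵥ _ = _
          rw [hdot]
          have h1 : x₀ ⬝ᵥ (Q *ᵥ x₀) = 0 := hq₀
          rw [h1, map_zero]) (hq v hv) (by rw [hdot, hw, map_zero]) (by
          intro h
          apply hqw
          have h1 : (fun i => em v (w i)) ⬝ᵥ (Q.map (em v) *ᵥ fun i => em v (w i)) = 0 := h
          rw [hdot] at h1
          exact (map_eq_zero (em v)).1 h1)
      refine ⟨rf (Q.map (em v)) z * rf (Q.map (em v)) y, fun _ => ⟨?_, ?_, hyz⟩⟩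
      · have h1 := (refl_prod_isom (hQv v) [z, y] (by
          intro u hu
          simp only [List.mem_cons, List.not_mem_nil, or_false] at hu
          rcases hu with rfl | rfl
          · exact hz
          · exact hy)).1
        simpa using h1
      · rw [det_mul, rf_det (hQv v) hz, rf_det (hQv v) hy]
        ring
    · exact ⟨1, fun h => absurd h hv⟩
  choose O hO using hO
  obtain ⟨O', h1, h2, h3⟩ := so_wa hQ hd S O (fun v hv => (hO v hv).1) (fun v hv => (hO v hv).2.1)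
    (fun v => {M | M *ᵥ (fun i => em v (x₀ i)) ∈ U v}) (by
      intro v hv
      have hc : Continuous fun M : Matrix (Fin n) (Fin n) (Cp v) =>
          M *ᵥ (fun i => em v (x₀ i)) := Continuous.matrix_mulVec continuous_id continuous_const
      refine hc.continuousAt.preimage_mem_nhds ?_
      rw [(hO v hv).2.2]
      exact hU v hv)
  refine ⟨O' *ᵥ x₀, ?_, ?_, ?_⟩
  · intro h
    exact hx₀ (eq_zero_of_mulVec_eq_zero (by rw [h2]; exact one_ne_zero) h)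
  · rw [wit1_isom h1, hq₀]
  · intro v hv
    have h4 := h3 v hv
    have h5 : (fun i => em v ((O' *ᵥ x₀) i)) = O'.map (em v) *ᵥ (fun i => em v (x₀ i)) := by
      ext i
      simp only [mulVec, dotProduct, map_sum, map_mul, Matrix.map_apply]
    rw [h5]
    exact h4

end NF83
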