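import Pool.Agent.H.MP_83e36b_nt.nf.Ic
import Pool.Agent.H.MP_83e36b_nt.sp.StarLoc
import Pool.Agent.H.MP_83e36b_nt.sp.CCls
import Pool.Agent.H.MP_83e36b_nt.sp.WCancel

/-! Weak approximation for the variety `Cᵀ Q C = gamM (dbl e g)`; as sp/ZWa.lean. -/

set_option autoImplicit false

open Topology Matrix Polynomial SpinWA

namespace NF83

variable {kk : Type} [Field kk] [CharZero kk] [PlSys kk]

/-- weak approximation for the polynomials `g` with `cf g 0 = c t²` and a given class of forms -/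
def StarP (kk : Type) [Field kk] [PlSys kk] (m e : ℕ) (c : kk) (R : WG kk) : Prop :=
  ∀ (S : Finset (Pk kk)) (_ : p0 kk ∈ S) (g : ∀ v : Pk kk, Fin m → Cp v) (τ : ∀ v : Pk kk, Cp v)
    (_ : ∀ v ∈ S, (hk (g v)).det ≠ 0) (_ : ∀ v ∈ S, τ v ≠ 0)
    (_ : ∀ v ∈ S, cf (g v) 0 = em v c * τ v ^ 2)
    (_ : ∀ v ∈ S, e • cl 1 + cls ((2 : Cp v) • hk (g v)) + cls ((-2 : Cp v) • hk1 (g v)) =
      WG.map (em v) R)
    (U : ∀ v : Pk kk, Set (Fin m → Cp v)) (_ : ∀ v ∈ S, U v ∈ 𝓝 (g v))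
    (W : ∀ v : Pk kk, Set (Cp v)) (_ : ∀ v ∈ S, W v ∈ 𝓝 (τ v)),
    ∃ (G : Fin m → kk) (t : kk), (hk G).det ≠ 0 ∧ t ≠ 0 ∧ cf G 0 = c * t ^ 2 ∧
      e • cl 1 + cls ((2 : kk) • hk G) + cls ((-2 : kk) • hk1 G) = R ∧
      ∀ v ∈ S, (fun i => em v (G i)) ∈ U v ∧ em v t ∈ W v

theorem z_waG {m e : ℕ} (he : e ≤ 1)
    {Q : Matrix (Fin (2 * (m) + e)) (Fin (2 * (m) + e)) kk} (hQ : Qᵀ = Q)
    (hd : Q.det ≠ 0) (hR : StarP kk m e Q.det (cls Q))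
    (S : Finset (Pk kk)) (hS : p0 kk ∈ S) (g : ∀ v : Pk kk, Fin (m) → Cp v)
    (C : ∀ v : Pk kk, Matrix (Fin (2 * (m) + e)) (Fin (2 * (m) + e)) (Cp v))
    (hC : ∀ v, (C v)ᵀ * Q.map (em v) * C v = gamM (dbl e (g v))) (hCd : ∀ v, (C v).det ≠ 0)
    (U : ∀ v : Pk kk, Set (Fin (m) → Cp v)) (hU : ∀ v ∈ S, U v ∈ 𝓝 (g v))
    (W : ∀ v : Pk kk, Set (Matrix (Fin (2 * (m) + e)) (Fin (2 * (m) + e)) (Cp v)))
    (hW : ∀ v ∈ S, W v ∈ 𝓝 (C v)) :
    ∃ (G : Fin (m) → kk)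
      (C' : Matrix (Fin (2 * (m) + e)) (Fin (2 * (m) + e)) kk),
      C'ᵀ * Q * C' = gamM (dbl e G) ∧ C'.det ≠ 0 ∧
      ∀ v ∈ S, (fun i => em v (G i)) ∈ U v ∧ C'.map (em v) ∈ W v := by
  classical
  have h2 : ∀ v : Pk kk, (2 : Cp v) ≠ 0 := fun v => two_ne_zero
  have hdetQ : ∀ v : Pk kk, (Q.map (em v)).det = em v Q.det := fun v => by
    rw [RingHom.map_det]; rfl
  have hQt : ∀ v : Pk kk, (Q.map (em v))ᵀ = Q.map (em v) := fun v => by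
    rw [← Matrix.transpose_map, hQ]
  have hdet : ∀ v, (2 ^ (m) * (hk (g v)).det * cf (g v) 0 ^ e) ^ 2 * cf (g v) 0 =
      (C v).det ^ 2 * em v Q.det := fun v => by
    rw [← det_gam he, ← hC v, Matrix.det_mul, Matrix.det_mul, Matrix.det_transpose, hdetQ]
    ring
  have hne : ∀ v, (2 ^ (m) * (hk (g v)).det * cf (g v) 0 ^ e) ^ 2 * cf (g v) 0 ≠ 0 :=
    fun v => by
    rw [hdet]
    exact mul_ne_zero (pow_ne_zero _ (hCd v)) ((_root_.map_ne_zero _).2 hd)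
  have hg0 : ∀ v, cf (g v) 0 ≠ 0 := fun v h => hne v (by rw [h, mul_zero])
  have hgd : ∀ v, (hk (g v)).det ≠ 0 := fun v h => hne v (by rw [h]; ring)
  have hD : ∀ v, 2 ^ (m) * (hk (g v)).det * cf (g v) 0 ^ e ≠ 0 := fun v =>
    mul_ne_zero (mul_ne_zero (pow_ne_zero _ (h2 v)) (hgd v)) (pow_ne_zero _ (hg0 v))
  obtain ⟨τ, hτdef⟩ : ∃ τ : ∀ v : Pk kk, Cp v, ∀ v, τ v = (C v).det /
    (2 ^ (m) * (hk (g v)).det * cf (g v) 0 ^ e) := ⟨_, fun v => rfl⟩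
  have hτ0 : ∀ v, τ v ≠ 0 := fun v => by
    rw [hτdef]; exact div_ne_zero (hCd v) (hD v)
  have hDτ : ∀ v, 2 ^ (m) * (hk (g v)).det * cf (g v) 0 ^ e * τ v = (C v).det := fun v => by
    rw [hτdef, mul_comm, div_mul_cancel₀ _ (hD v)]
  have hτ : ∀ v, cf (g v) 0 = em v Q.det * τ v ^ 2 := fun v => by
    have h1 := hdet v
    rw [← hDτ v] at h1
    have h3 : (2 ^ (m) * (hk (g v)).det * cf (g v) 0 ^ e) ^ 2 ≠ 0 := pow_ne_zero _ (hD v)
    apply mul_left_cancel₀ h3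
    rw [h1]
    ring
  have hcl : ∀ v, e • cl 1 + cls ((2 : Cp v) • hk (g v)) + cls ((-2 : Cp v) • hk1 (g v)) =
      WG.map (em v) (cls Q) := fun v => by
    rw [← cls_gam he (g v) (hgd v) (hg0 v), map_cls (by norm_num) (h2 v) (em v) hQ hd]
    refine (cls_cong (h2 v) (hQt v) ?_ ⟨C v, hCd v, hC v⟩).symm
    rw [hdetQ]
    exact (_root_.map_ne_zero _).2 hd
  obtain ⟨V, W', hV, hW', hic⟩ := ic_wa hQ hd S C (fun v _ => hCd v) W hW
  have hnb : ∀ v ∈ S, ∃ U1 ∈ 𝓝 (g v), ∃ T1 ∈ 𝓝 (τ v), ∀ a ∈ U1, gamM (dbl e a) ∈ V v ∧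
      ∀ t ∈ T1, 2 ^ (m) * (hk a).det * cf a 0 ^ e * t ∈ W' v := by
    intro v hv
    have c1 : Continuous fun a : Fin (m) → Cp v => gamM (dbl e a) :=
      continuous_gamM.comp (continuous_dbl e)
    have c2 : Continuous fun p : (Fin (m) → Cp v) × Cp v =>
        2 ^ (m) * (hk p.1).det * cf p.1 0 ^ e * p.2 := by
      have d1 : Continuous fun p : (Fin (m) → Cp v) × Cp v => (hk p.1).det :=
        (continuous_hk.comp continuous_fst).matrix_det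
      have d2 : Continuous fun p : (Fin (m) → Cp v) × Cp v => cf p.1 0 :=
        (continuous_cf 0).comp continuous_fst
      fun_prop
    have e1 : ∀ᶠ a in 𝓝 (g v), gamM (dbl e a) ∈ V v := by
      refine c1.continuousAt.eventually_mem ?_
      rw [← hC v]
      exact hV v hv
    have e2 : ∀ᶠ p in 𝓝 (g v, τ v), 2 ^ (m) * (hk p.1).det * cf p.1 0 ^ e * p.2 ∈ W' v := by
      refine c2.continuousAt.eventually_mem ?_
      show W' v ∈ 𝓝 (2 ^ (m) * (hk (g v)).det * cf (g v) 0 ^ e * τ v)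
      rw [hDτ v]
      exact hW' v hv
    rw [nhds_prod_eq] at e2
    obtain ⟨pa, hpa, pb, hpb, hp⟩ := Filter.eventually_prod_iff.1 e2
    refine ⟨{a | pa a ∧ gamM (dbl e a) ∈ V v}, hpa.and e1, {t | pb t}, hpb, ?_⟩
    rintro a ⟨ha1, ha2⟩
    exact ⟨ha2, fun t ht => hp ha1 ht⟩
  choose! U1 hU1 T1 hT1 hUT using hnb
  obtain ⟨G, t, hGd, ht0, hG0, hGc, hG⟩ := hR S hS g τ
    (fun v _ => hgd v) (fun v _ => hτ0 v) (fun v _ => hτ v) (fun v _ => hcl v)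
    (fun v => U1 v ∩ U v) (fun v hv => Filter.inter_mem (hU1 v hv) (hU v hv)) T1 hT1
  have hGc0 : cf G 0 ≠ 0 := by
    rw [hG0]; exact mul_ne_zero hd (pow_ne_zero _ ht0)
  have hAt : (gamM (dbl e G))ᵀ = gamM (dbl e G) := gamM_transpose he G
  have hAd : (gamM (dbl e G)).det ≠ 0 := by
    rw [det_gam he]
    exact mul_ne_zero (pow_ne_zero _ (mul_ne_zero (mul_ne_zero (pow_ne_zero _ two_ne_zero) hGd)
      (pow_ne_zero _ hGc0))) hGc0
  have hcong : Cong Q (gamM (dbl e G)) := by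
    refine cong_of_cls (by norm_num) hQ hd hAt hAd ?_
    rw [cls_gam he G hGd hGc0, hGc]
  have hmap : ∀ v, (gamM (dbl e G)).map (em v) = gamM (dbl e fun i => em v (G i)) := fun v => by
    rw [gamM_map]
    congr 1
    funext i
    rw [dbl_map]
  have hδm : ∀ v, em v (2 ^ (m) * (hk G).det * cf G 0 ^ e * t) =
      2 ^ (m) * (hk fun i => em v (G i)).det * cf (fun i => em v (G i)) 0 ^ e * em v t :=
    fun v => by
    rw [map_mul, map_mul, map_mul, map_pow, map_pow, hk_det_map, cf_map, map_ofNat]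
  obtain ⟨C', hC', hC'W⟩ := hic (gamM (dbl e G)) (2 ^ (m) * (hk G).det * cf G 0 ^ e * t)
    hAt (fun v hv => by
      rw [hmap v]
      exact (hUT v hv _ (hG v hv).1.1).1) hcong (by
      rw [det_gam he, hG0]
      ring) (fun v hv => by
      rw [hδm v]
      exact (hUT v hv _ (hG v hv).1.1).2 _ (hG v hv).2)
  refine ⟨G, C', hC', ?_, fun v hv => ⟨(hG v hv).1.2, hC'W v hv⟩⟩
  intro h
  apply hAd
  rw [← hC', Matrix.det_mul, h, mul_zero]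

end NF83
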