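import Pool.Agent.H.MP_83e36b_nt.rg.T3
import Pool.Agent.H.MP_83e36b_nt.rg.Wit1
import Pool.Agent.H.MP_83e36b_nt.rg.ZG
import Pool.Agent.H.MP_83e36b_nt.sp.KCore

/-! Weak approximation for the polynomials of degree two with `cf g 0 = c t²` and a given class. -/

set_option autoImplicit false

open Matrix SpinWA Topology

namespace NF83

section nat
variable {K : Type*} [Field K] {L : Type*} [Field L] (φ : K →+* L)

theorem Bt_map (d x y : Fin 3 → K) :
    φ (Bt d x y) = Bt (fun i => φ (d i)) (fun i => φ (x i)) (fun i => φ (y i)) := by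
  simp only [Bt, map_add, map_mul]

theorem tv_map (d : Fin 3 → K) (x : Fin 5 → K) (u : Fin 3 → K) :
    (fun i => φ (tv d x u i)) = tv (fun i => φ (d i)) (fun i => φ (x i)) (fun i => φ (u i)) := by
  funext i
  unfold tv
  rw [map_sub, map_mul, map_div₀, Bt_map, Bt_map]
  rfl

theorem tl_map (d : Fin 3 → K) (x : Fin 5 → K) (u : Fin 3 → K) :
    φ (tl d x u) = tl (fun i => φ (d i)) (fun i => φ (x i)) (fun i => φ (u i)) := by
  unfold tl
  rw [map_mul, map_mul, map_ofNat, Bt_map, tv_map]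

theorem tG_map (d : Fin 3 → K) (c : K) (x : Fin 5 → K) (u : Fin 3 → K) :
    (fun i => φ (tG d c x u i)) =
      tG (fun i => φ (d i)) (φ c) (fun i => φ (x i)) (fun i => φ (u i)) := by
  funext i
  unfold tG
  rw [← tl_map]
  fin_cases i
  · show φ (c * (tl d x u * x 4) ^ 2) = φ c * (φ (tl d x u) * φ (x 4)) ^ 2
    rw [map_mul, map_pow, map_mul]
  · show φ (tl d x u * x 3) = φ (tl d x u) * φ (x 3)
    rw [map_mul]

theorem tt_map (d : Fin 3 → K) (x : Fin 5 → K) (u : Fin 3 → K) :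
    φ (tt d x u) = tt (fun i => φ (d i)) (fun i => φ (x i)) (fun i => φ (u i)) := by
  unfold tt
  rw [map_mul, tl_map]

theorem tOk_map {d : Fin 3 → K} {x : Fin 5 → K} {u : Fin 3 → K}
    (h : tOk (fun i => φ (d i)) (fun i => φ (x i)) (fun i => φ (u i))) : tOk d x u := by
  obtain ⟨h1, h2, h3, h4⟩ := h
  refine ⟨?_, ?_, ?_, ?_⟩
  · intro h0
    apply h1
    have e : tV (fun i => φ (x i)) = fun i => φ (tV x i) := rfl
    rw [e, ← Bt_map, h0, map_zero]
  · intro h0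
    apply h2
    show φ (x 3) = 0
    rw [h0, map_zero]
  · intro h0
    apply h3
    show φ (x 4) = 0
    rw [h0, map_zero]
  · intro h0
    apply h4
    rw [← tv_map, ← Bt_map, h0, map_zero]

theorem M5_map (d : Fin 3 → K) (c : K) : (M5 d c).map φ = M5 (fun i => φ (d i)) (φ c) := by
  unfold M5
  rw [Matrix.diagonal_map (map_zero φ)]
  congr 1
  funext i
  fin_cases i
  · rfl
  · rfl
  · rfl
  · show φ (-1) = -1
    rw [map_neg, map_one]
  · show φ (4 * c) = 4 * φ c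
    rw [map_mul, map_ofNat]

end nat

section cont
variable {K : Type*} [NontriviallyNormedField K]

theorem Bt_cont {X : Type*} [TopologicalSpace X] {p : X} (d : Fin 3 → K) {a b : X → Fin 3 → K}
    (ha : ContinuousAt a p) (hb : ContinuousAt b p) :
    ContinuousAt (fun q => Bt d (a q) (b q)) p := by
  unfold Bt
  have ha' : ∀ i, ContinuousAt (fun q => a q i) p := fun i =>
    (continuous_apply i).continuousAt.comp ha
  have hb' : ∀ i, ContinuousAt (fun q => b q i) p := fun i =>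
    (continuous_apply i).continuousAt.comp hb
  exact (((continuousAt_const.mul (ha' 0)).mul (hb' 0)).add
    ((continuousAt_const.mul (ha' 1)).mul (hb' 1))).add
    ((continuousAt_const.mul (ha' 2)).mul (hb' 2))

theorem tV_cont (p : (Fin 5 → K) × (Fin 3 → K)) :
    ContinuousAt (fun q : (Fin 5 → K) × (Fin 3 → K) => tV q.1) p := by
  unfold tV
  refine continuousAt_pi.2 fun i => ?_
  exact ((continuous_apply _).comp continuous_fst).continuousAt

theorem tv_cont {d : Fin 3 → K} {p : (Fin 5 → K) × (Fin 3 → K)}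
    (h : Bt d (tV p.1) (tV p.1) ≠ 0) :
    ContinuousAt (fun q : (Fin 5 → K) × (Fin 3 → K) => tv d q.1 q.2) p := by
  unfold tv
  refine continuousAt_pi.2 fun i => ?_
  have h1 := Bt_cont d (continuous_snd.continuousAt (x := p)) (tV_cont p)
  have h2 := Bt_cont d (tV_cont p) (tV_cont p)
  have h3 : ContinuousAt (fun q : (Fin 5 → K) × (Fin 3 → K) => tV q.1 i) p :=
    (continuous_apply i).continuousAt.comp (tV_cont p)
  exact (((continuous_apply i).comp continuous_snd).continuousAt).sub ((h1.div h2 h).mul h3)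

theorem tl_cont {d : Fin 3 → K} {p : (Fin 5 → K) × (Fin 3 → K)}
    (h : Bt d (tV p.1) (tV p.1) ≠ 0) :
    ContinuousAt (fun q : (Fin 5 → K) × (Fin 3 → K) => tl d q.1 q.2) p := by
  unfold tl
  exact (continuousAt_const.mul ((continuous_apply 3).comp continuous_fst).continuousAt).mul
    (Bt_cont d (tv_cont h) (tv_cont h))

theorem tt_cont {d : Fin 3 → K} {p : (Fin 5 → K) × (Fin 3 → K)}
    (h : Bt d (tV p.1) (tV p.1) ≠ 0) :
    ContinuousAt (fun q : (Fin 5 → K) × (Fin 3 → K) => tt d q.1 q.2) p := by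
  unfold tt
  exact (tl_cont h).mul ((continuous_apply 4).comp continuous_fst).continuousAt

theorem tG_cont {d : Fin 3 → K} {c : K} {p : (Fin 5 → K) × (Fin 3 → K)}
    (h : Bt d (tV p.1) (tV p.1) ≠ 0) :
    ContinuousAt (fun q : (Fin 5 → K) × (Fin 3 → K) => tG d c q.1 q.2) p := by
  refine continuousAt_pi.2 fun i => ?_
  fin_cases i
  · show ContinuousAt (fun q : (Fin 5 → K) × (Fin 3 → K) => c * (tl d q.1 q.2 * q.1 4) ^ 2) p
    exact continuousAt_const.mul (((tl_cont h).mul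
      ((continuous_apply 4).comp continuous_fst).continuousAt).pow 2)
  · show ContinuousAt (fun q : (Fin 5 → K) × (Fin 3 → K) => tl d q.1 q.2 * q.1 3) p
    exact (tl_cont h).mul ((continuous_apply 3).comp continuous_fst).continuousAt

theorem tOk_nhds {d : Fin 3 → K} {p : (Fin 5 → K) × (Fin 3 → K)} (h : tOk d p.1 p.2) :
    ∀ᶠ q in 𝓝 p, tOk d q.1 q.2 := by
  obtain ⟨h1, h2, h3, h4⟩ := h
  have e1 := (Bt_cont d (tV_cont p) (tV_cont p)).eventually_ne h1
  have e2 := (((continuous_apply 3).comp continuous_fst).continuousAt (x := p)).eventually_ne h2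
  have e3 := (((continuous_apply 4).comp continuous_fst).continuousAt (x := p)).eventually_ne h3
  have e4 := (Bt_cont d (tv_cont h1) (tv_cont h1)).eventually_ne h4
  filter_upwards [e1, e2, e3, e4] with q q1 q2 q3 q4
  exact ⟨q1, q2, q3, q4⟩

/-- the local step -/
theorem t_loc [CompleteSpace K] [CharZero K] {c : K} (hc : c ≠ 0) {d : Fin 3 → K}
    (hd : ∀ i, d i ≠ 0) (g : Fin (1 + 1) → K) {τ : K} (hτ : τ ≠ 0) (h0 : cf g 0 = c * τ ^ 2)
    (hΔ : (hk g).det ≠ 0)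
    (hcl : cls ((2 : K) • hk g) + cls ((-2 : K) • hk1 g) = cl 1 + ∑ i, cl (d i))
    {U : Set (Fin (1 + 1) → K)} (hU : U ∈ 𝓝 g) {W : Set K} (hW : W ∈ 𝓝 τ) :
    ∃ (x : Fin 5 → K) (u : Fin 3 → K) (N1 : Set (Fin 5 → K)) (N2 : Set (Fin 3 → K)),
      qf (M5 d c) x = 0 ∧ x ≠ 0 ∧ N1 ∈ 𝓝 x ∧ N2 ∈ 𝓝 u ∧
      ∀ x' ∈ N1, ∀ u' ∈ N2, tOk d x' u' ∧ tG d c x' u' ∈ U ∧ tt d x' u' ∈ W := by
  have h2 : (2 : K) ≠ 0 := two_ne_zero
  have hcf : cf g 0 ≠ 0 := by
    rw [h0]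
    exact mul_ne_zero hc (pow_ne_zero _ hτ)
  obtain ⟨g', hg'U, hg'0, hg'1, hg'd, hg'c⟩ : ∃ g' : Fin (1 + 1) → K, U ∈ 𝓝 g' ∧
      g' 0 = c * τ ^ 2 ∧ g' 1 ≠ 0 ∧ (hk g').det ≠ 0 ∧
      cls ((2 : K) • hk g') + cls ((-2 : K) • hk1 g') = cl 1 + ∑ i, cl (d i) := by
    have h3 := (cls_hk_nhds g hΔ hcf).and (interior_mem_nhds.2 hU)
    have hcont : ContinuousAt (fun ε : K => (![g 0, g 1 + ε] : Fin (1 + 1) → K)) 0 := by
      refine continuousAt_pi.2 fun i => ?_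
      fin_cases i
      · exact continuousAt_const
      · exact continuousAt_const.add continuousAt_id
    have e0 : (![g 0, g 1 + 0] : Fin (1 + 1) → K) = g := by
      funext i
      rw [add_zero]
      fin_cases i <;> rfl
    have h4 : ∀ᶠ ε : K in 𝓝 0, ((hk (![g 0, g 1 + ε] : Fin (1 + 1) → K)).det ≠ 0 ∧
        cf (![g 0, g 1 + ε] : Fin (1 + 1) → K) 0 ≠ 0 ∧
        cls ((2 : K) • hk (![g 0, g 1 + ε] : Fin (1 + 1) → K)) = cls ((2 : K) • hk g) ∧
        cls ((-2 : K) • hk1 (![g 0, g 1 + ε] : Fin (1 + 1) → K)) = cls ((-2 : K) • hk1 g)) ∧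
        (![g 0, g 1 + ε] : Fin (1 + 1) → K) ∈ interior U := by
      refine hcont.eventually (p := fun a => ((hk a).det ≠ 0 ∧ cf a 0 ≠ 0 ∧
        cls ((2 : K) • hk a) = cls ((2 : K) • hk g) ∧
        cls ((-2 : K) • hk1 a) = cls ((-2 : K) • hk1 g)) ∧ a ∈ interior U) ?_
      have e0' : (fun ε : K => (![g 0, g 1 + ε] : Fin (1 + 1) → K)) 0 = g := e0
      rw [e0']
      exact h3
    have h5 : ∀ᶠ ε : K in 𝓝[≠] 0, g 1 + ε ≠ 0 := by
      by_cases hg1 : g 1 = 0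
      · filter_upwards [self_mem_nhdsWithin] with ε hε
        rw [hg1, zero_add]
        exact hε
      · refine nhdsWithin_le_nhds ?_
        have h6 : ContinuousAt (fun ε : K => g 1 + ε) 0 := continuousAt_const.add continuousAt_id
        exact h6.eventually_ne (by rw [add_zero]; exact hg1)
    have h6 : ∀ᶠ ε : K in 𝓝[≠] 0, ((hk (![g 0, g 1 + ε] : Fin (1 + 1) → K)).det ≠ 0 ∧
        cf (![g 0, g 1 + ε] : Fin (1 + 1) → K) 0 ≠ 0 ∧
        cls ((2 : K) • hk (![g 0, g 1 + ε] : Fin (1 + 1) → K)) = cls ((2 : K) • hk g) ∧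
        cls ((-2 : K) • hk1 (![g 0, g 1 + ε] : Fin (1 + 1) → K)) = cls ((-2 : K) • hk1 g)) ∧
        (![g 0, g 1 + ε] : Fin (1 + 1) → K) ∈ interior U := nhdsWithin_le_nhds h4
    obtain ⟨ε, ⟨⟨⟨q1, q2, q3, q4⟩, q5⟩, q6⟩⟩ := (h6.and h5).exists
    refine ⟨![g 0, g 1 + ε], mem_interior_iff_mem_nhds.1 q5, ?_, q6, q1, ?_⟩
    · have e : cf g 0 = g 0 := rfl
      rw [← h0, e]
      rfl
    · rw [q3, q4]
      exact hcl
  obtain ⟨x, u, hx, hx0, hok, hG, ht⟩ := tG_bwd h2 hc hd g' hτ hg'0 hg'1 hg'd hg'c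
  have hV : Bt d (tV ((x, u) : (Fin 5 → K) × (Fin 3 → K)).1)
      (tV ((x, u) : (Fin 5 → K) × (Fin 3 → K)).1) ≠ 0 := hok.1
  have e1 : ∀ᶠ q : (Fin 5 → K) × (Fin 3 → K) in 𝓝 (x, u), tOk d q.1 q.2 := tOk_nhds hok
  have e2 : ∀ᶠ q : (Fin 5 → K) × (Fin 3 → K) in 𝓝 (x, u), tG d c q.1 q.2 ∈ U := by
    refine (tG_cont (c := c) hV).eventually_mem ?_
    show U ∈ 𝓝 (tG d c x u)
    rw [hG]
    exact hg'U
  have e3 : ∀ᶠ q : (Fin 5 → K) × (Fin 3 → K) in 𝓝 (x, u), tt d q.1 q.2 ∈ W := by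
    refine (tt_cont hV).eventually_mem ?_
    show W ∈ 𝓝 (tt d x u)
    rw [ht]
    exact hW
  have e4 := (e1.and (e2.and e3))
  rw [Filter.Eventually, mem_nhds_prod_iff] at e4
  obtain ⟨N1, hN1, N2, hN2, hN⟩ := e4
  exact ⟨x, u, N1, N2, hx, hx0, hN1, hN2, fun x' hx' u' hu' => hN (Set.mk_mem_prod hx' hu')⟩

end cont

variable {kk : Type} [Field kk] [CharZero kk] [PlSys kk]

theorem star2R {e : ℕ} {c : kk} (hc : c ≠ 0) {R : WG kk} (hR : HasBase2 c (R - e • cl 1)) :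
    StarP kk (1 + 1) e c R := by
  intro S hS g τ hgd hτ0 hτ hcl U hU W hW
  obtain ⟨d, δ, x₀, w, hd, hδ, hRd, b1, b2, b3, b4⟩ := hR
  have hex : ∀ v : Pk kk, ∃ (x : Fin 5 → Cp v) (u : Fin 3 → Cp v) (N1 : Set (Fin 5 → Cp v))
      (N2 : Set (Fin 3 → Cp v)), v ∈ S → (qf (M5 (fun i => em v (d i)) (em v c)) x = 0 ∧ x ≠ 0 ∧
      N1 ∈ 𝓝 x ∧ N2 ∈ 𝓝 u ∧
      ∀ x' ∈ N1, ∀ u' ∈ N2, tOk (fun i => em v (d i)) x' u' ∧
        tG (fun i => em v (d i)) (em v c) x' u' ∈ U v ∧ tt (fun i => em v (d i)) x' u' ∈ W v) := by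
    intro v
    by_cases hv : v ∈ S
    · obtain ⟨x, u, N1, N2, h⟩ := t_loc (K := Cp v) ((map_ne_zero (em v)).2 hc)
        (d := fun i => em v (d i)) (fun i => (map_ne_zero (em v)).2 (hd i)) (g v) (hτ0 v hv)
        (hτ v hv) (hgd v hv) (by
          have h1 := hcl v hv
          have h2 : R = e • cl 1 + (cl 1 + ∑ i, cl (d i)) := by
            rw [← hRd]
            abel
          rw [h2, map_add, map_nsmul, map_add, map_sum, WG.map_cl, map_one, add_assoc] at h1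
          rw [add_left_cancel h1]
          congr 1
          exact Finset.sum_congr rfl fun i _ => WG.map_cl _ _) (hU v hv) (hW v hv)
      exact ⟨x, u, N1, N2, fun _ => h⟩
    · exact ⟨0, 0, Set.univ, Set.univ, fun h => absurd h hv⟩
  choose x u N1 N2 hx using hex
  obtain ⟨x', -, hx'q, hx'⟩ := iso_wa (M5_transpose d c) (M5_det two_ne_zero hd hc) b1 b2 b3 b4 S x
    (fun v hv => (hx v hv).2.1) (fun v hv => by rw [M5_map]; exact (hx v hv).1) N1
    (fun v hv => (hx v hv).2.2.1)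
  obtain ⟨u', hu'⟩ := wa_fun S u N2 (fun v hv => (hx v hv).2.2.2.1)
  have hall := fun v hv => (hx v hv).2.2.2.2 _ (hx' v hv) _ (hu' v hv)
  have hok : tOk d x' u' := tOk_map (em (p0 kk)) (hall (p0 kk) hS).1
  obtain ⟨g1, g2, g3, g4⟩ := tG_good (K := kk) two_ne_zero hc hd hδ hx'q hok
  refine ⟨tG d c x' u', tt d x' u', g1, g2, g3, ?_, fun v hv => ⟨?_, ?_⟩⟩
  · rw [add_assoc, g4, ← hRd]
    abel
  · rw [tG_map (em v)]
    exact (hall v hv).2.1
  · rw [tt_map (em v)]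
    exact (hall v hv).2.2

end NF83
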