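import Pool.Agent.H.MP_83e36b_nt.rf.GDefR
import Pool.Agent.H.MP_83e36b_nt.rf.StarR
import Pool.Agent.H.MP_83e36b_nt.rf.BP
import Pool.Agent.H.MP_83e36b_nt.rg.ApxG
import Pool.Agent.H.MP_83e36b_nt.rg.Star2
import Pool.Agent.H.MP_83e36b_nt.rg.BP4
import Pool.Agent.H.MP_83e36b_nt.rf.GlobR
import Pool.Agent.H.MP_83e36b_nt.rf.CmpR
import Pool.Agent.H.MP_83e36b_nt.rf.LocPair
import Pool.Agent.H.MP_83e36b_nt.rf.LocBR
import Pool.Agent.H.MP_83e36b_nt.td.Grp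
import Pool.Agent.H.MP_83e36b_nt.td.Cmp2

/-! Reduction of the relative Grunwald problem modulo a normal subgroup `2.A_n` (`4 ≤ n ≤ 7`) with a
complement; as td/Core3.lean. -/

set_option autoImplicit false

open Matrix Polynomial SpinWA DC83

namespace NF83

/-- the trace form has a nonzero determinant -/
private theorem GrunG_det {K : Type*} [Field K] {L : Type*} [Field L] (f : K →+* L) {n : ℕ}
    (a : Fin n → K) {x : Fin n → L} (hx : Function.Injective x)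
    (h : AnWA.monicPoly (fun i => f (a i)) = ∏ i, (X - C (x i))) : (hk a).det ≠ 0 := by
  intro h0
  have h1 := croot_hk_det_map f a
  rw [h0, map_zero, ← vand_hk x _ hx h, det_mul, det_transpose] at h1
  exact det_vandermonde_ne_zero_iff.2 hx (mul_self_eq_zero.1 h1.symm)

private theorem GrunG_vmap {Ω : Type*} [Field Ω] {n : ℕ} {x : Fin n → Ω}
    {k : Type*} [Field k] [Algebra k Ω] {τ : Ω ≃ₐ[k] Ω} {σ : Equiv.Perm (Fin n)}
    (h : ∀ i, τ (x i) = x (σ i)) : (vandermonde x).map τ = pM Ω σ * vandermonde x := by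
  ext i j
  rw [pM_mul_apply, Matrix.map_apply, vandermonde_apply, vandermonde_apply, map_pow, h]

/-- the lifting problem for the global algebra -/
private theorem GrunG_glob {k : Type} [Field k] [CharZero k] {Ω : Type} [Field Ω] [CharZero Ω]
    [Algebra k Ω] [IsAlgClosed Ω] [Algebra.IsAlgebraic k Ω] {n m : ℕ} (hn : 2 ≤ n + m)
    {a₀ b : Fin n → k} {aF : Fin m → k} {z₀ z : Fin n → Ω} {zF : Fin m → Ω}
    (hz₀ : Function.Injective z₀) (hz : Function.Injective z) (hzF : Function.Injective zF)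
    (hza : AnWA.monicPoly (fun i => algebraMap k Ω (a₀ i)) = ∏ i, (X - C (z₀ i)))
    (hzb : AnWA.monicPoly (fun i => algebraMap k Ω (b i)) = ∏ i, (X - C (z i)))
    (hzFa : AnWA.monicPoly (fun i => algebraMap k Ω (aF i)) = ∏ i, (X - C (zF i)))
    (σ₀ σ : (Ω ≃ₐ[k] Ω) →* Equiv.Perm (Fin n)) (ψ : (Ω ≃ₐ[k] Ω) →* Equiv.Perm (Fin m))
    (hσ₀ : ∀ τ i, τ (z₀ i) = z₀ (σ₀ τ i)) (hσ : ∀ τ i, τ (z i) = z (σ τ i))
    (hψ : ∀ τ i, τ (zF i) = zF (ψ τ i))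
    (ρ₀ : (Ω ≃ₐ[k] Ω) →* dAlt (n + m)) (hρ₀ : Cts ρ₀)
    (hpi : ∀ τ, pi (n + m) (ρ₀ τ) = bP (σ₀ τ) (ψ τ))
    {C' : Matrix (Fin n) (Fin n) k} (hC' : C'ᵀ * hk a₀ * C' = hk b)
    (hdet : (vandermonde z).det = algebraMap k Ω C'.det * (vandermonde z₀).det) :
    ∃ ρ : (Ω ≃ₐ[k] Ω) →* dAlt (n + m), Cts ρ ∧ ∀ τ, pi (n + m) (ρ τ) = bP (σ τ) (ψ τ) := by
  obtain ⟨c, hc⟩ : ∃ c : k →+* Ω, c = algebraMap k Ω := ⟨_, rfl⟩
  have e0 : (hk a₀).map c = (vandermonde z₀)ᵀ * vandermonde z₀ := by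
    rw [hc, hk_map]
    exact (vand_hk z₀ _ hz₀ hza).symm
  have e1 : (hk b).map c = (vandermonde z)ᵀ * vandermonde z := by
    rw [hc, hk_map]
    exact (vand_hk z _ hz hzb).symm
  have hVz : (vandermonde z).det ≠ 0 := det_vandermonde_ne_zero_iff.2 hz
  have hVz₀ : (vandermonde z₀).det ≠ 0 := det_vandermonde_ne_zero_iff.2 hz₀
  have hVF : (vandermonde zF).det ≠ 0 := det_vandermonde_ne_zero_iff.2 hzF
  obtain ⟨θ, hθ⟩ : ∃ θ : (Ω ≃ₐ[k] Ω) →* Equiv.Perm (Fin (n + m)), ∀ τ, θ τ = bP (σ τ) (ψ τ) :=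
    ⟨MonoidHom.mk' (fun τ => bP (σ τ) (ψ τ)) fun τ τ' => by
      rw [map_mul, map_mul, bP_mul], fun τ => rfl⟩
  obtain ⟨θ₀, hθ₀⟩ : ∃ θ₀ : (Ω ≃ₐ[k] Ω) →* Equiv.Perm (Fin (n + m)),
      ∀ τ, θ₀ τ = bP (σ₀ τ) (ψ τ) :=
    ⟨MonoidHom.mk' (fun τ => bP (σ₀ τ) (ψ τ)) fun τ τ' => by
      rw [map_mul, map_mul, bP_mul], fun τ => rfl⟩
  have hmap : ∀ (x : Fin n → Ω) (π : Equiv.Perm (Fin n)) (τ : Ω ≃ₐ[k] Ω),
      (∀ i, τ (x i) = x (π i)) → (∀ i, τ (zF i) = zF (ψ τ i)) →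
      (bM (vandermonde x) (vandermonde zF)).map τ =
        pM Ω (bP π (ψ τ)) * bM (vandermonde x) (vandermonde zF) := by
    intro x π τ h1 h2
    have h3 : (bM (vandermonde x) (vandermonde zF)).map τ =
      (bM (vandermonde x) (vandermonde zF)).map (τ : Ω →+* Ω) := rfl
    have h4 : (vandermonde x).map (τ : Ω →+* Ω) = pM Ω π * vandermonde x := GrunG_vmap h1
    have h5 : (vandermonde zF).map (τ : Ω →+* Ω) = pM Ω (ψ τ) * vandermonde zF := GrunG_vmap h2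
    rw [h3, pM_bP, bM_mul, bM_map, h4, h5]
  obtain ⟨ρ, h1, h2⟩ := globR hn (k := k) (Ω := Ω)
    (V := bM (vandermonde z) (vandermonde zF)) (V₀ := bM (vandermonde z₀) (vandermonde zF))
    (by rw [bM_det]; exact mul_ne_zero hVz hVF) (by rw [bM_det]; exact mul_ne_zero hVz₀ hVF) θ θ₀
    (fun τ => by rw [hθ]; exact hmap z (σ τ) τ (hσ τ) (hψ τ))
    (fun τ => by rw [hθ₀]; exact hmap z₀ (σ₀ τ) τ (hσ₀ τ) (hψ τ)) ρ₀ hρ₀
    (fun τ => by rw [hpi, hθ₀]) (B := bM C' 1) (by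
      rw [← hc, bM_map, Matrix.map_one _ (map_zero c) (map_one c), bM_transpose, bM_transpose,
        bM_transpose, bM_mul, bM_mul, bM_mul, bM_mul, transpose_one, Matrix.one_mul, Matrix.mul_one,
        ← e0, ← e1, ← hC', Matrix.map_mul, Matrix.map_mul, Matrix.transpose_map])
    (by
      rw [bM_det, bM_det, bM_det, det_one, mul_one, hdet]
      ring)
  exact ⟨ρ, h1, fun τ => by rw [h2, hθ]⟩

/-- the comparison of the local algebras -/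
private theorem GrunG_loc {K : Type} [Field K] [CharZero K] (hK : GoodPl K) {Ω : Type} [Field Ω]
    [CharZero Ω] [Algebra K Ω] [IsAlgClosed Ω] [Algebra.IsAlgebraic K Ω] {n m : ℕ} (hn : n ≤ 7)
    (ρ ρ₀ : (Ω ≃ₐ[K] Ω) →* dAlt (n + m)) (hρ : Cts ρ) (hρ₀ : Cts ρ₀)
    (σ σ₀ : (Ω ≃ₐ[K] Ω) → Equiv.Perm (Fin n)) (ψ : (Ω ≃ₐ[K] Ω) → Equiv.Perm (Fin m))
    (hpi : ∀ τ, pi (n + m) (ρ τ) = bP (σ τ) (ψ τ))
    (hpi₀ : ∀ τ, pi (n + m) (ρ₀ τ) = bP (σ₀ τ) (ψ τ))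
    {a a₀ : Fin n → K} {aF : Fin m → K} {x x₀ : Fin n → Ω} {xF : Fin m → Ω}
    (hx : Function.Injective x) (hx₀ : Function.Injective x₀) (hxF : Function.Injective xF)
    (ha : AnWA.monicPoly (fun i => algebraMap K Ω (a i)) = ∏ i, (X - C (x i)))
    (ha₀ : AnWA.monicPoly (fun i => algebraMap K Ω (a₀ i)) = ∏ i, (X - C (x₀ i)))
    (haF : AnWA.monicPoly (fun i => algebraMap K Ω (aF i)) = ∏ i, (X - C (xF i)))
    (hσ : ∀ τ i, τ (x i) = x (σ τ i)) (hσ₀ : ∀ τ i, τ (x₀ i) = x₀ (σ₀ τ i))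
    (hψ : ∀ τ i, τ (xF i) = xF (ψ τ i)) : Cong (hk a₀) (hk a) := by
  refine loc_pair hK hn ρ ρ₀ hρ hρ₀ σ σ₀ ψ hpi hpi₀ (V := vandermonde x)
    (V₀ := vandermonde x₀) (W := vandermonde xF) (det_vandermonde_ne_zero_iff.2 hx)
    (det_vandermonde_ne_zero_iff.2 hx₀) (det_vandermonde_ne_zero_iff.2 hxF)
    (fun τ => GrunG_vmap (hσ τ)) (fun τ => GrunG_vmap (hσ₀ τ)) (fun τ => GrunG_vmap (hψ τ))
    (HF := hk aF) ?_ ?_ ?_
  · rw [hk_map]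
    exact (vand_hk x _ hx ha).symm
  · rw [hk_map]
    exact (vand_hk x₀ _ hx₀ ha₀).symm
  · rw [hk_map]
    exact (vand_hk xF _ hxF haF).symm

/-- the roots of the image of a polynomial -/
private theorem GrunG_poly {k K Ω₀ Ω : Type*} [Field k] [Field K] [Field Ω₀] [Field Ω]
    [Algebra k Ω₀] [Algebra K Ω] {j : k →+* K} {ι : Ω₀ →+* Ω}
    (hι : ι.comp (algebraMap k Ω₀) = (algebraMap K Ω).comp j) {n : ℕ} {a : Fin n → k}
    {z : Fin n → Ω₀} (h : AnWA.monicPoly (fun i => algebraMap k Ω₀ (a i)) = ∏ i, (X - C (z i))) :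
    AnWA.monicPoly (fun i => algebraMap K Ω (j (a i))) = ∏ i, (X - C (ι (z i))) := by
  have h1 : AnWA.monicPoly (fun i => algebraMap K Ω (j (a i))) =
      (AnWA.monicPoly (fun i => algebraMap k Ω₀ (a i))).map ι := by
    rw [← AnWA.monicPoly_map]
    exact congrArg AnWA.monicPoly (funext fun i => (RingHom.congr_fun hι (a i)).symm)
  rw [h1, h, Polynomial.map_prod]
  refine Finset.prod_congr rfl fun i _ => ?_
  rw [Polynomial.map_sub, Polynomial.map_X, Polynomial.map_C]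

/-- the base points -/
theorem star_all {kk : Type} [Field kk] [CharZero kk] [PlSys kk] {n : ℕ} (hn4 : 4 ≤ n)
    (hn7 : n ≤ 7) (a₀ : Fin n → kk) (h : (hk a₀).det ≠ 0) : ∃ m e : ℕ, 1 ≤ m ∧ e ≤ 1 ∧
      n = 2 * m + e ∧ StarP kk m e (hk a₀).det (cls (hk a₀)) := by
  by_cases h6 : 6 ≤ n
  · obtain ⟨e, he, rfl⟩ : ∃ e : ℕ, e ≤ 1 ∧ n = 2 * (1 + 1 + 1) + e :=
      ⟨n - 6, by omega, by omega⟩
    refine ⟨1 + 1 + 1, e, by omega, he, rfl, ?_⟩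
    obtain ⟨a, h1, h2, h3⟩ := base_point he a₀ h
    have h4 := hasBase_of (two_ne_zero) h a h1 h2
    have h5 : coreF (hk a₀).det 1 a = cls (hk a₀) - e • cl (1 : kk) := by
      rw [← h3]
      exact (add_sub_cancel_left _ _).symm
    rw [h5] at h4
    intro S hS g τ hgd hτ0 hτ hcl U hU W hW
    exact star3R e S hS h (cls (hk a₀)) h4 g τ hgd hτ0 hτ hcl U hU W hW
  · obtain ⟨e, he, rfl⟩ : ∃ e : ℕ, e ≤ 1 ∧ n = 2 * (1 + 1) + e :=
      ⟨n - 4, by omega, by omega⟩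
    refine ⟨1 + 1, e, by omega, he, rfl, ?_⟩
    obtain ⟨g, η, h1, h2, h3, h4⟩ := base_point4 (m := 1 + 1) (by omega) he a₀ h
    refine star2R h ?_
    have h5 : cls ((2 : kk) • hk g) + cls ((-2 : kk) • hk1 g) =
        cls (hk a₀) - e • cl (1 : kk) := by
      rw [← h4]
      abel
    rw [← h5]
    exact hasBase2_of two_ne_zero h g h1 h2 h3

/-- Proof: compare with `rel_grun1` in td/Core3.lean. -/
theorem rel_grunG {kk : Type} [Field kk] [CharZero kk] [PlSys kk]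
    (hpl : ∀ v : Pk kk, GoodPl (Cp v)) {n m : ℕ} (hn4 : 4 ≤ n) (hn7 : n ≤ 7) {K : Type} [Field K]
    [Algebra kk K] {G : Type} [Group G] {A : Type} [Group A] {q : G →* A} {s : A →* G}
    (hs : ∀ a, q (s a) = a) {φ : G →* dAlt (n + m)} (h : KerTwoAlt q φ) (γ : A →* (K ≃ₐ[kk] K))
    (hA : RelGr kk γ) : RelGr kk (γ.comp q) := by
  classical
  intro S κ hκ ι hι ρ hρ hρα
  have hal : Algebra.IsAlgebraic kk (Kb kk) := AlgebraicClosure.isAlgebraic kk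
  have hchar : CharZero (Kb kk) :=
    charZero_of_injective_algebraMap (algebraMap kk (Kb kk)).injective
  have hcv : ∀ v : Pk kk, CharZero (Ok v) := fun v =>
    charZero_of_injective_algebraMap (algebraMap (Cp v) (Ok v)).injective
  have hn2 : 2 ≤ n := by omega
  have hq : Function.Surjective q := fun a => ⟨s a, hs a⟩
  obtain ⟨π₁, π₂, hπ⟩ := exists_blocks2 (by omega : 3 ≤ n) hq h
  obtain ⟨β₀, hβc, hβκ, hβ⟩ := hA (insert (p0 kk) S) κ hκ ι hι (fun v => q.comp (ρ v))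
    (fun v => (hρ v).comp q) hρα
  -- the conjugators
  have hh : ∀ v : Pk kk, ∃ g : G, v ∈ insert (p0 kk) S → γ (q g) = 1 ∧ ∀ τ τ₀,
      (∀ x, ι v (τ₀ x) = τ (ι v x)) → β₀ τ₀ = q (g * ρ v τ * g⁻¹) := by
    intro v
    by_cases hv : v ∈ insert (p0 kk) S
    · obtain ⟨b, hb, hb'⟩ := hβ v hv
      obtain ⟨g, rfl⟩ := hq b
      refine ⟨g, fun _ => ⟨hb, fun τ τ₀ hτ => ?_⟩⟩
      rw [hb' τ τ₀ hτ, map_mul, map_mul, map_inv]
      rfl
    · exact ⟨1, fun h => absurd h hv⟩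
  choose e he using hh
  obtain ⟨ρ', hρ'⟩ : ∃ ρ' : ∀ v : Pk kk, (Ok v ≃ₐ[Cp v] Ok v) →* G,
      ∀ v τ, ρ' v τ = e v * ρ v τ * (e v)⁻¹ :=
    ⟨fun v => (MulAut.conj (e v)).toMonoidHom.comp (ρ v), fun v τ => rfl⟩
  have hρ'c : ∀ v, Cts (ρ' v) := by
    intro v
    refine Cts.of_two (hρ v) (hρ v) (ρ' v) fun τ h1 _ => ?_
    rw [hρ', h1, mul_one, mul_inv_cancel]
  have hβρ : ∀ v ∈ insert (p0 kk) S, ∀ τ τ₀, (∀ x, ι v (τ₀ x) = τ (ι v x)) →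
      β₀ τ₀ = q (ρ' v τ) := by
    intro v hv τ τ₀ hτ
    rw [hρ', (he v hv).2 τ τ₀ hτ]
  -- the global algebras
  obtain ⟨aF, zF, hzF, hzFa, hFgal⟩ := exists_point (K := kk) (Ω := Kb kk) (hβc.comp π₂)
  obtain ⟨a₀, z₀, hz₀, hza₀, hgal₀⟩ := exists_point (K := kk) (Ω := Kb kk)
    ((hβc.comp s).comp π₁)
  have hres : ∀ v : Pk kk, ∃ r : (Ok v ≃ₐ[Cp v] Ok v) →* (Kb kk ≃ₐ[kk] Kb kk),
      ∀ τ x, ι v (r τ x) = τ (ι v x) := fun v => exists_res (em v) (ι v) (hι v)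
  choose rv hrv using hres
  -- the local homomorphisms, extended by the base point
  have hex : ∀ v : Pk kk, ∃ ρt : (Ok v ≃ₐ[Cp v] Ok v) →* G, Cts ρt ∧
      (∀ τ, q (ρt τ) = β₀ (rv v τ)) ∧ (v ∈ insert (p0 kk) S → ρt = ρ' v) := by
    intro v
    by_cases hv : v ∈ insert (p0 kk) S
    · exact ⟨ρ' v, hρ'c v, fun τ => (hβρ v hv τ _ (hrv v τ)).symm, fun _ => rfl⟩
    · refine ⟨(s.comp β₀).comp (rv v), Cts_res (ι v) (hrv v) (hβc.comp s), fun τ => ?_,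
        fun h => absurd h hv⟩
      exact hs _
  choose ρt hρtc hρtq hρt using hex
  have hpt : ∀ v : Pk kk, ∃ (a : Fin n → Cp v) (x : Fin n → Ok v), Function.Injective x ∧
      AnWA.monicPoly (fun i => algebraMap (Cp v) (Ok v) (a i)) = ∏ i, (X - C (x i)) ∧
      ∀ τ i, τ (x i) = x (π₁ (ρt v τ) i) := fun v =>
    exists_point (K := Cp v) (Ω := Ok v) ((hρtc v).comp π₁)
  choose a x hx hax hσx using hpt
  have hcong : ∀ v : Pk kk, Cong (hk fun i => em v (a₀ i)) (hk (a v)) := by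
    intro v
    have hcv' := hcv v
    refine GrunG_loc (hpl v) (Ω := Ok v) (by omega : n ≤ 7) (φ.comp (ρt v))
      (φ.comp ((s.comp β₀).comp (rv v))) ((hρtc v).comp φ)
      ((Cts_res (ι v) (hrv v) (hβc.comp s)).comp φ) (fun τ => π₁ (ρt v τ))
      (fun τ => π₁ (s (β₀ (rv v τ)))) (fun τ => π₂ (β₀ (rv v τ))) ?_ ?_ (hx v)
      ((ι v).injective.comp hz₀) ((ι v).injective.comp hzF) (hax v)
      (GrunG_poly (hι v) hza₀) (GrunG_poly (hι v) hzFa) (hσx v) ?_ ?_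
    · intro τ
      rw [← hρtq v τ]
      exact hπ (ρt v τ)
    · intro τ
      have h1 := hπ (s (β₀ (rv v τ)))
      rw [hs] at h1
      exact h1
    · intro τ i
      show τ (ι v (z₀ i)) = ι v (z₀ _)
      rw [← hrv v τ (z₀ i), hgal₀ (rv v τ) i]
      rfl
    · intro τ i
      show τ (ι v (zF i)) = ι v (zF _)
      rw [← hrv v τ (zF i), hFgal (rv v τ) i]
      rfl
  -- the square root of the determinant
  have hd0 : (hk a₀).det ≠ 0 := GrunG_det (algebraMap kk (Kb kk)) a₀ hz₀ hza₀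
  obtain ⟨δ, hδdef⟩ : ∃ δ, δ = (vandermonde z₀).det := ⟨_, rfl⟩
  have hδ0 : δ ≠ 0 := by
    rw [hδdef]
    exact det_vandermonde_ne_zero_iff.2 hz₀
  have hδ : δ ^ 2 = algebraMap kk (Kb kk) (hk a₀).det := by
    rw [RingHom.map_det, RingHom.mapMatrix_apply, hk_map, ← vand_hk z₀ _ hz₀ hza₀, det_mul,
      det_transpose, hδdef, sq]
  have hlB : ∀ v : Pk kk, ∃ B : Matrix (Fin n) (Fin n) (Cp v),
      Bᵀ * (hk a₀).map (em v) * B = hk (a v) ∧ B.det ≠ 0 ∧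
      algebraMap (Cp v) (Ok v) B.det * ι v δ = (vandermonde (x v)).det := by
    intro v
    refine loc_BR (by omega) (Q := (hk a₀).map (em v)) ?_ ?_ (hx v) (hax v) ?_ ?_
    · rw [← Matrix.transpose_map, hk_transpose]
    · rw [← RingHom.mapMatrix_apply, ← RingHom.map_det]
      exact (_root_.map_ne_zero _).2 hd0
    · rw [hk_map]
      exact hcong v
    · rw [← map_pow, hδ, ← RingHom.mapMatrix_apply, ← RingHom.map_det]
      exact RingHom.congr_fun (hι v) _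
  choose B hB hBd hBx using hlB
  obtain ⟨m', e', hm', he', hnm, hstar⟩ := star_all hn4 hn7 a₀ hd0
  obtain ⟨b, C', hC', hC'd, hy⟩ := approxG hm' he' hnm a₀ hd0 hstar (insert (p0 kk) S)
    (fun v => π₁.comp (ρt v)) (fun v => ι v δ) (fun v => (_root_.map_ne_zero _).2 hδ0) a x B hx
    hax hσx hB hBd hBx
  obtain ⟨z, hz, hzb, hzd⟩ := rootsR hn2 hd0 hC' hC'd hδ
  obtain ⟨σ, hσ⟩ := exists_gal hz hzb
  have hpi₀ : ∀ τ, pi (n + m) (φ (s (β₀ τ))) = bP (π₁ (s (β₀ τ))) (π₂ (β₀ τ)) := by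
    intro τ
    have h1 := hπ (s (β₀ τ))
    rw [hs] at h1
    exact h1
  obtain ⟨ρd, hcd, hρd⟩ := GrunG_glob (k := kk) (Ω := Kb kk) (by omega : 2 ≤ n + m) hz₀ hz hzF
    hza₀ hzb hzFa (π₁.comp (s.comp β₀)) σ (π₂.comp β₀) hgal₀ hσ hFgal (φ.comp (s.comp β₀))
    ((hβc.comp s).comp φ) hpi₀ hC' (by rw [hzd, hδdef])
  obtain ⟨ρ₁, h1φ, h1α⟩ := exists_hom2 hn2 hq h hπ ρd β₀ (fun τ => σ τ) hρd
  have hc₁ : Cts ρ₁ := by
    refine Cts.of_two hcd hβc ρ₁ fun τ h1 h2 => ?_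
    refine lift2_inj h ?_ ?_
    · rw [h1φ, h1, map_one]
    · rw [h1α, h2, map_one]
  have hρ₁σ : ∀ τ, π₁ (ρ₁ τ) = σ τ := by
    intro τ
    have h1 := hπ (ρ₁ τ)
    rw [h1φ, hρd] at h1
    exact (bP_inj h1).1.symm
  have hρ₁z : ∀ τ i, τ (z i) = z (π₁ (ρ₁ τ) i) := by
    intro τ i
    rw [hρ₁σ, hσ]
  obtain ⟨c, hcα, hcφ, hcc⟩ := exists_c hn2 h
  have hcmp : ∀ v : Pk kk, ∃ (g : G) (χ : (Ok v ≃ₐ[Cp v] Ok v) →* ℤˣ), q g = 1 ∧ Cts χ ∧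
      (v ∈ S → ∀ τ τ₀, (∀ x, ι v (τ₀ x) = τ (ι v x)) →
        ρ₁ τ₀ = c (χ τ) * (g * ρ' v τ * g⁻¹)) := by
    intro v
    by_cases hv : v ∈ S
    · have hv' : v ∈ insert (p0 kk) S := Finset.mem_insert_of_mem hv
      have hcv' := hcv v
      obtain ⟨y, hyb, hyσ, hyd⟩ := hy v hv'
      have hyρ : ∀ τ i, τ (y i) = y (π₁ (ρ' v τ) i) := by
        intro τ i
        rw [hyσ, hρt v hv']
        rfl
      have hdet' : (vandermonde y).det ≠ - (ι v) ((vandermonde z).det) := by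
        have e1 : ι v (algebraMap kk (Kb kk) C'.det) = algebraMap (Cp v) (Ok v) (em v C'.det) :=
          RingHom.congr_fun (hι v) _
        rw [hzd, map_mul, e1]
        exact hyd
      have hα' : ∀ τ τ₀, (∀ x, ι v (τ₀ x) = τ (ι v x)) → q (ρ₁ τ₀) = q (ρ' v τ) := by
        intro τ τ₀ hτ
        rw [h1α, hβρ v hv' τ τ₀ hτ]
      obtain ⟨g, χ, hg, hχ, hgχ⟩ := compareR (em v) (ι v) (hι v) hn2 h hπ hcα hcφ hcc hz hzb
        hρ₁z hc₁ hyb hyρ (hρ'c v) hα' hdet'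
      exact ⟨g, χ, hg, hχ, fun _ => hgχ⟩
    · exact ⟨1, 1, map_one _, Cts.one, fun h => absurd h hv⟩
  choose g χ hgα hχ hg using hcmp
  obtain ⟨χ₀, hχ₀, hχ₀'⟩ := quad S ι hι χ hχ
  obtain ⟨ρ₀, hρ₀⟩ : ∃ ρ₀ : (Kb kk ≃ₐ[kk] Kb kk) →* G, ∀ τ, ρ₀ τ = c (χ₀ τ) * ρ₁ τ := by
    refine ⟨MonoidHom.mk' (fun τ => c (χ₀ τ) * ρ₁ τ) ?_, fun τ => rfl⟩
    intro τ τ'
    rw [map_mul, map_mul, map_mul, mul_assoc, ← mul_assoc (c (χ₀ τ')), hcc (χ₀ τ') (ρ₁ τ)]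
    simp only [mul_assoc]
  refine ⟨ρ₀, ?_, ?_, ?_⟩
  · refine Cts.of_two hc₁ hχ₀ ρ₀ fun τ h1 h2 => ?_
    rw [hρ₀, h1, h2, map_one, one_mul]
  · intro τ x
    rw [MonoidHom.comp_apply, hρ₀, map_mul, hcα, one_mul, h1α]
    exact hβκ τ x
  · intro v hv
    refine ⟨g v * e v, ?_, fun τ τ₀ hτ₀ => ?_⟩
    · rw [MonoidHom.comp_apply, map_mul, hgα v, one_mul]
      exact (he v (Finset.mem_insert_of_mem hv)).1
    · rw [hρ₀, hg v hv τ τ₀ hτ₀, hχ₀' v hv τ τ₀ hτ₀, ← mul_assoc, ← map_mul,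
        Int.units_mul_self, map_one, one_mul, hρ']
      group

end NF83
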