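import Pool.Agent.H.MP_83e36b_nt.rg.GDefG
import Pool.Agent.H.MP_83e36b_nt.rf.RevR
import Pool.Agent.H.MP_83e36b_nt.rg.GrunG
import Pool.Agent.H.MP_83e36b_nt.rf.TrGR
import Pool.Agent.H.MP_83e36b_nt.nf.Fin
import Pool.Agent.H.MP_83e36b_nt.tw.SymC
import Pool.Agent.H.MP_83e36b_nt.tw.CBr
import Pool.Agent.H.MP_83e36b_nt.nr.SMain
import Pool.Agent.H.MP_83e36b_nt.nr.Semi

/-! The steps of the towers over number fields; the main theorem. -/

set_option autoImplicit false

open Polynomial NumberField IsDedekindDomain Topology DC83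

namespace NF83

open CM83 NR83 WA83 AnWA

universe u v

/-- Artin's theorem. -/
theorem gal_of_fixR {k : Type} [Field k] {K : Type} [Field K] [Algebra k K] {G : Type} [Group G]
    [Finite G] {α : G →* (K ≃ₐ[k] K)} (hfix : fixF α = ⊥) :
    FiniteDimensional k K ∧ IsGalois k K ∧ Function.Surjective α := by
  haveI : Finite α.range := Finite.of_surjective α.rangeRestrict α.rangeRestrict_surjective
  have h1 : FiniteDimensional (fixF α) K := by
    unfold fixF
    exact inferInstanceAs (FiniteDimensional (FixedPoints.subfield α.range K) K)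
  rw [hfix] at h1
  have h2 : FiniteDimensional k K := Module.Finite.trans (⊥ : IntermediateField k K) K
  refine ⟨h2, IsGalois.of_fixedField_eq_bot k K ?_, ?_⟩
  · rw [eq_bot_iff, ← hfix]
    exact IntermediateField.fixedField_le le_top
  · have h3 := IntermediateField.fixingSubgroup_fixedField α.range
    have h4 : IntermediateField.fixedField α.range = ⊥ := hfix
    rw [h4, IntermediateField.fixingSubgroup_bot] at h3
    exact MonoidHom.range_eq_top.1 h3.symm

/-- the restriction to `K` -/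
theorem exists_resKR {kk : Type} [Field kk] [CharZero kk] {K : Type} [Field K] [Algebra kk K]
    [FiniteDimensional kk K] [IsGalois kk K] (κ : K →+* Kb kk)
    (hκ : κ.comp (algebraMap kk K) = algebraMap kk (Kb kk)) :
    ∃ r : (Kb kk ≃ₐ[kk] Kb kk) →* (K ≃ₐ[kk] K), Cts r ∧ ∀ τ x, κ (r τ x) = τ (κ x) := by
  letI : Algebra K (Kb kk) := κ.toAlgebra
  haveI : IsScalarTower kk K (Kb kk) := IsScalarTower.of_algebraMap_eq' hκ.symm
  haveI : Algebra.IsAlgebraic kk (Kb kk) := AlgebraicClosure.isAlgebraic kk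
  obtain ⟨r, hr⟩ : ∃ r : (Kb kk ≃ₐ[kk] Kb kk) →* (K ≃ₐ[kk] K), ∀ τ x, κ (r τ x) = τ (κ x) :=
    ⟨AlgEquiv.restrictNormalHom K, fun τ x => AlgEquiv.restrictNormal_commutes τ K x⟩
  refine ⟨r, ?_, hr⟩
  let b := Module.finBasis kk K
  refine Cts.of_fix r (fun i => κ (b i)) fun τ hτ => ?_
  have h1 : (r τ).toLinearMap = LinearMap.id := b.ext fun i => κ.injective ((hr τ _).trans (hτ i))
  exact AlgEquiv.ext fun x => LinearMap.congr_fun h1 x

/-- the relative Grunwald problem for the Galois group -/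
theorem rel_gal {kk : Type} [Field kk] [CharZero kk] [PlSys kk] {K : Type} [Field K]
    [Algebra kk K] [FiniteDimensional kk K] [IsGalois kk K] {G : Type} [Group G]
    (α : G →* (K ≃ₐ[kk] K)) (h : Function.Bijective α) : RelGr kk α := by
  intro S κ hκ ι hι ρ hρ hρα
  obtain ⟨r, hr, hrκ⟩ := exists_resKR κ hκ
  obtain ⟨e, he⟩ : ∃ e : G ≃* (K ≃ₐ[kk] K), ∀ g, e g = α g :=
    ⟨MulEquiv.ofBijective α h, fun g => rfl⟩
  have he' : ∀ y, α (e.symm y) = y := fun y => by rw [← he, e.apply_symm_apply]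
  refine ⟨e.symm.toMonoidHom.comp r, hr.comp _, fun τ x => ?_, fun v hv => ⟨1, map_one _, ?_⟩⟩
  · have h1 : α ((e.symm.toMonoidHom.comp r) τ) = r τ := he' (r τ)
    rw [h1, hrκ]
  · intro τ τ₀ hτ
    rw [one_mul, inv_one, mul_one]
    apply h.1
    have h1 : α ((e.symm.toMonoidHom.comp r) τ₀) = r τ₀ := he' (r τ₀)
    rw [h1]
    refine AlgEquiv.ext fun x => ?_
    apply κ.injective
    apply (ι v).injective
    rw [hrκ, hτ, hρα]

section
variable {k : Type} [Field k] [NumberField k]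

/-- the points of a finite set of places -/
theorem fin_of_rel {K : Type} [Field K] [Algebra k K] [FiniteDimensional k K] [IsGalois k K]
    {G : Type} [Group G] [Finite G] {α : G →* (K ≃ₐ[k] K)} (hα : Function.Surjective α)
    (hG : ∀ T : Finset (HeightOneSpectrum (𝓞 k)), @RelGr k _ (plSys k T) K _ _ G _ α) :
    WAFinFor α := by
  classical
  intro d β hβ m f g F _ _ ξ η h hg hF T
  rintro ⟨A, B⟩
  have hcount : Countable k := countable_numberField k
  -- the data at all places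
  let D : ∀ i, Pts f g (complEmb T i) := fun i =>
    match i with
    | Sum.inl v => A v
    | Sum.inr v => B v
  have hex : ∀ N : ℕ, ∃ p : Pts f g (RingHom.id k), ∀ i,
      (∀ j : Fin m, ‖(mapPts (complEmb T i) p).1.1 j - (D i).1.1 j‖ < 1 / ((N : ℝ) + 1)) ∧
      ‖(mapPts (complEmb T i) p).1.2 - (D i).1.2‖ < 1 / ((N : ℝ) + 1) := by
    intro N
    letI iP : PlSys k := plSys k T
    have hGT : RelGr k α := hG T
    have hfi : Finite (InfinitePlace k ⊕ {v // v ∈ T}) := inferInstance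
    have hfi' : (Set.univ : Set (InfinitePlace k ⊕ {v // v ∈ T})).Finite := Set.finite_univ
    obtain ⟨p, hp⟩ := transferR hα hGT β hβ h hg hF (hfi'.toFinset : Finset (Pk k)) D
      (ε := 1 / ((N : ℝ) + 1)) (by positivity)
    exact ⟨p, fun i => hp i (hfi'.mem_toFinset.2 (Set.mem_univ i))⟩
  choose p hp using hex
  refine mem_closure_of_tendsto (f := fun N => ((fun v : InfinitePlace k =>
    mapPts (algebraMap k v.Completion) (p N)),
    (fun v : T => mapPts (algebraMap k (v.1.adicCompletion k)) (p N)))) (b := Filter.atTop) ?_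
    (Filter.Eventually.of_forall fun N => ⟨p N, rfl⟩)
  rw [Prod.tendsto_iff]
  constructor
  · rw [tendsto_pi_nhds]
    intro v
    exact Pts.tendsto _ _ (fun N j => (hp N (Sum.inl v)).1 j) (fun N => (hp N (Sum.inl v)).2)
  · rw [tendsto_pi_nhds]
    intro v
    exact Pts.tendsto _ _ (fun N j => (hp N (Sum.inr v)).1 j) (fun N => (hp N (Sum.inr v)).2)

private theorem FinR_nhds {k : Type*} [CommRing k] {R : Type*} [NormedField R] {m : ℕ}
    {f g : (MvPolynomial (Fin m) k)[X]} {φ : k →+* R} (a : Pts f g φ) {δ : ℝ} (hδ : 0 < δ) :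
    {q : Pts f g φ | (∀ j, ‖q.1.1 j - a.1.1 j‖ < δ) ∧ ‖q.1.2 - a.1.2‖ < δ} ∈ 𝓝 a := by
  have h1 : ∀ᶠ q in 𝓝 a, ‖q.1.2 - a.1.2‖ < δ := by
    have h2 : Continuous fun q : Pts f g φ => ‖q.1.2 - a.1.2‖ := by fun_prop
    have h3 := h2.continuousAt (x := a)
    refine h3.eventually_lt continuousAt_const ?_
    rw [sub_self, norm_zero]
    exact hδ
  have h4 : ∀ᶠ q in 𝓝 a, ∀ j, ‖q.1.1 j - a.1.1 j‖ < δ := by
    rw [Filter.eventually_all]
    intro j
    have h2 : Continuous fun q : Pts f g φ => ‖q.1.1 j - a.1.1 j‖ := by fun_prop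
    have h3 := h2.continuousAt (x := a)
    refine h3.eventually_lt continuousAt_const ?_
    rw [sub_self, norm_zero]
    exact hδ
  exact h4.and h1

/-- weak approximation for the system of the places -/
theorem pl_of_fin {m : ℕ} {f g : (MvPolynomial (Fin m) k)[X]} (h : WAFin k f g)
    (T : Finset (HeightOneSpectrum (𝓞 k))) : @WAPl k _ (plSys k T) m f g := by
  letI iP : PlSys k := plSys k T
  intro S P δ hδ
  obtain ⟨A, hA⟩ : ∃ A : ∀ v : InfinitePlace k, Pts f g (algebraMap k v.Completion),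
      ∀ v, A v = P (Sum.inl v) := ⟨fun v => P (Sum.inl v), fun v => rfl⟩
  obtain ⟨B, hB⟩ : ∃ B : ∀ v : T, Pts f g (algebraMap k (v.1.adicCompletion k)),
      ∀ v, B v = P (Sum.inr v) := ⟨fun v => P (Sum.inr v), fun v => rfl⟩
  have h1 := h T (A, B)
  rw [mem_closure_iff_nhds] at h1
  obtain ⟨_, ⟨hq1, hq2⟩, p, rfl⟩ := h1
    ((Set.univ.pi fun v => {q : Pts f g (algebraMap k v.Completion) |
      (∀ j, ‖q.1.1 j - (A v).1.1 j‖ < δ) ∧ ‖q.1.2 - (A v).1.2‖ < δ}) ×ˢ
    (Set.univ.pi fun v : T => {q : Pts f g (algebraMap k (v.1.adicCompletion k)) |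
      (∀ j, ‖q.1.1 j - (B v).1.1 j‖ < δ) ∧ ‖q.1.2 - (B v).1.2‖ < δ})) (by
      rw [nhds_prod_eq]
      refine Filter.prod_mem_prod ?_ ?_
      · exact set_pi_mem_nhds Set.finite_univ fun v _ => FinR_nhds (A v) hδ
      · exact set_pi_mem_nhds Set.finite_univ fun v _ => FinR_nhds (B v) hδ)
  refine ⟨p, fun v _ => ?_⟩
  match v with
  | Sum.inl v =>
    have h2 : (∀ j, ‖(mapPts (algebraMap k v.Completion) p).1.1 j - (A v).1.1 j‖ < δ) ∧
      ‖(mapPts (algebraMap k v.Completion) p).1.2 - (A v).1.2‖ < δ := hq1 v (Set.mem_univ _)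
    rw [hA] at h2
    exact h2
  | Sum.inr v =>
    have h2 : (∀ j, ‖(mapPts (algebraMap k (v.1.adicCompletion k)) p).1.1 j - (B v).1.1 j‖ < δ) ∧
      ‖(mapPts (algebraMap k (v.1.adicCompletion k)) p).1.2 - (B v).1.2‖ < δ :=
      hq2 v (Set.mem_univ _)
    rw [hB] at h2
    exact h2

/-- from weak approximation to the relative Grunwald problem -/
theorem rel_of_fin {K : Type} [Field K] [Algebra k K] [FiniteDimensional k K] [IsGalois k K]
    {G : Type} [Group G] [Finite G] {α : G →* (K ≃ₐ[k] K)} (hα : Function.Surjective α)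
    (h : WAFinFor α) (T : Finset (HeightOneSpectrum (𝓞 k))) :
    @RelGr k _ (plSys k T) K _ _ G _ α := by
  letI iP : PlSys k := plSys k T
  have hcount : Countable k := countable_numberField k
  have hst : ∀ (F : Type) [Field F] [Algebra k F], StablyIso k F F := fun F _ _ =>
    StablyIso.of_equiv AlgEquiv.refl
  exact rev_transferR hα fun d β hβ m f g ξ η hgen hg =>
    pl_of_fin (h d β hβ m f g (fixF β) ξ η hgen hg (hst _)) T

theorem wa_galR {K : Type} [Field K] [Algebra k K] [FiniteDimensional k K] [IsGalois k K]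
    {G : Type} [Group G] [Finite G] (α : G →* (K ≃ₐ[k] K)) (h : Function.Bijective α) :
    WAFinFor α :=
  fin_of_rel h.2 fun T => @rel_gal k _ _ (plSys k T) K _ _ _ _ G _ α h

theorem wa_dblR {K : Type} [Field K] [Algebra k K] [FiniteDimensional k K] [IsGalois k K]
    {G A : Type} [Group G] [Finite G] [Group A] [Finite A] (γ : A →* (K ≃ₐ[k] K))
    (hγs : Function.Surjective γ) (q : G →* A) {s : A →* G} (hs : ∀ a, q (s a) = a) {n m : ℕ}
    (hn : 4 ≤ n) (hn7 : n ≤ 7) (φ : G →* dAlt (n + m)) (hφ : KerTwoAlt q φ) (hγ : WAFinFor γ) :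
    WAFinFor (γ.comp q) := by
  have hq : Function.Surjective q := fun a => ⟨s a, hs a⟩
  refine fin_of_rel (hγs.comp hq) fun T => ?_
  letI iP : PlSys k := plSys k T
  have hgood : ∀ v : Pk k, GoodPl (Cp v) := fun v => good_compl T v
  exact rel_grunG hgood hn hn7 hs hφ γ (rel_of_fin hγs hγ T)

theorem wa_altR {K : Type} [Field K] [Algebra k K] {G A : Type} [Group G] [Finite G] [Group A]
    (γ : A →* (K ≃ₐ[k] K)) (q : G →* A) (hq : Function.Surjective q)
    (hN : AltSeries q.ker ∨ Tower G q.ker) (hγ : WAFinFor γ) : WAFinFor (γ.comp q) := by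
  intro d β hβ m f g F _ _ ξ η hgen hg hF
  have hfin : Finite A := Finite.of_surjective q hq
  let e : G ⧸ q.ker ≃* A := QuotientGroup.quotientKerEquivOfSurjective q hq
  obtain ⟨c, γ', hγ'⟩ := exists_semi γ
  have hT : Tower G q.ker := hN.elim (Tower.of_alt q.ker) id
  have hR : Red k K G q.ker := red_tower hT
  have hβ' : SemiLin ((γ.comp e.toMonoidHom).comp (QuotientGroup.mk' q.ker)) β := hβ
  have h1 := hR (γ.comp e.toMonoidHom) d c β hβ' (γ'.comp e.toMonoidHom)
    (hγ'.comp e.toMonoidHom e.injective)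
  rw [fixF_comp γ' e.toMonoidHom e.surjective] at h1
  exact hγ c γ' hγ' m f g F ξ η hgen hg (hF.trans h1)

theorem wa_symR {K : Type} [Field K] [Algebra k K] {G A : Type} [Group G] [Finite G] [Group A]
    (γ : A →* (K ≃ₐ[k] K)) (q : G →* A) (hq : Function.Surjective q) {J I : Type} [Finite J]
    [Finite I] [MulAction G J] [MulAction A I] {p : J → I} (h : SymKer q p)
    (hγ : WAFinFor γ) : WAFinFor (γ.comp q) := by
  intro d β hβ m f g F _ _ ξ η hgen hg hF
  have hA : Finite A := Finite.of_surjective q hq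
  obtain ⟨e, δ, hδ⟩ := exists_semi γ
  exact hγ e δ hδ m f g F ξ η hgen hg (hF.trans (red_sym q hq h γ β hβ δ hδ))

/-- Main theorem. -/
theorem main_ntower {K : Type} [Field K] [Algebra k K] {G : Type} [Group G] [Finite G]
    (α : G →* (K ≃ₐ[k] K)) (hfix : fixF α = ⊥) (hα : NTower α) : WAFinFor α := by
  rename_i hfin
  revert hfin hfix
  induction hα with
  | gal α h =>
    intro hfin hfix
    obtain ⟨h1, h2, h3⟩ := gal_of_fixR hfix
    exact wa_galR α h
  | sym γ q hq p h hγ ih =>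
    intro hfin hfix
    rw [fixF_comp γ q hq] at hfix
    have hA := Finite.of_surjective q hq
    exact wa_symR γ q hq h (ih hfix)
  | alt γ q hq hN hγ ih =>
    intro hfin hfix
    rw [fixF_comp γ q hq] at hfix
    have hA := Finite.of_surjective q hq
    exact wa_altR γ q hq hN (ih hfix)
  | dbl γ q s hs n N hn hn7 hN φ hφ hγ ih =>
    intro hfin hfix
    have hq : Function.Surjective q := fun a => ⟨s a, hs a⟩
    rw [fixF_comp γ q hq] at hfix
    have hA := Finite.of_surjective q hq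
    obtain ⟨h1, h2, h3⟩ := gal_of_fixR hfix
    obtain ⟨m, rfl⟩ := Nat.exists_eq_add_of_le hN
    obtain ⟨ψ, hψ⟩ := hφ.ker
    exact wa_dblR γ h3 q hs hn hn7 ψ hψ (ih hfix)

end

end NF83
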