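import Pool.Agent.H.MP_83e36b_nt.nf.Qa
import Pool.Agent.H.MP_83e36b_nt.sp.WRefl

/-! The polynomials of degree two with `cf g 0 = c t²`: algebra. -/

set_option autoImplicit false

open Matrix SpinWA

namespace NF83

section
variable {K : Type*} [Field K]

/-- the bilinear form of `<d 0, d 1, d 2>` -/
def Bt (d x y : Fin 3 → K) : K := d 0 * x 0 * y 0 + d 1 * x 1 * y 1 + d 2 * x 2 * y 2

theorem Bt_comm (d x y : Fin 3 → K) : Bt d x y = Bt d y x := by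
  simp only [Bt]
  ring

theorem T3_entry (d : Fin 3 → K) (P : Matrix (Fin 3) (Fin 3) K) (i j : Fin 3) :
    (Pᵀ * diagonal d * P) i j = Bt d (fun l => P l i) (fun l => P l j) := by
  rw [Matrix.mul_apply]
  simp only [Matrix.mul_diagonal, Matrix.transpose_apply]
  simp only [Bt, Fin.sum_univ_three]
  ring

/-- the third vector -/
def D3 (d u v : Fin 3 → K) : Fin 3 → K :=
  ![(u 1 * v 2 - u 2 * v 1) / d 0, (u 2 * v 0 - u 0 * v 2) / d 1, (u 0 * v 1 - u 1 * v 0) / d 2]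

theorem D3_u {d : Fin 3 → K} (hd : ∀ i, d i ≠ 0) (u v : Fin 3 → K) : Bt d u (D3 d u v) = 0 := by
  have h0 := hd 0
  have h1 := hd 1
  have h2 := hd 2
  simp only [Bt, D3, Matrix.cons_val_zero, Matrix.cons_val_one, Matrix.cons_val]
  field_simp
  ring

theorem D3_v {d : Fin 3 → K} (hd : ∀ i, d i ≠ 0) (u v : Fin 3 → K) : Bt d v (D3 d u v) = 0 := by
  have h0 := hd 0
  have h1 := hd 1
  have h2 := hd 2
  simp only [Bt, D3, Matrix.cons_val_zero, Matrix.cons_val_one, Matrix.cons_val]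
  field_simp
  ring

theorem D3_gram {d : Fin 3 → K} (hd : ∀ i, d i ≠ 0) (u v : Fin 3 → K) :
    Bt d u u * Bt d v v - Bt d u v ^ 2 = d 0 * d 1 * d 2 * Bt d (D3 d u v) (D3 d u v) := by
  have h0 := hd 0
  have h1 := hd 1
  have h2 := hd 2
  simp only [Bt, D3, Matrix.cons_val_zero, Matrix.cons_val_one, Matrix.cons_val]
  field_simp
  ring

theorem T3_three (h2 : (2 : K) ≠ 0) {d : Fin 3 → K} (hd : ∀ i, d i ≠ 0) {u v : Fin 3 → K}
    (huv : Bt d u v = 0) (hu : Bt d u u ≠ 0) (hv : Bt d v v ≠ 0) :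
    ∑ i, cl (d i) = cl (Bt d u u) + cl (Bt d v v) + cl (Bt d u u * Bt d v v / (d 0 * d 1 * d 2)) := by
  have hD : d 0 * d 1 * d 2 ≠ 0 := mul_ne_zero (mul_ne_zero (hd 0) (hd 1)) (hd 2)
  obtain ⟨t, ht⟩ : ∃ t, t = D3 d u v := ⟨_, rfl⟩
  have hut : Bt d u t = 0 := by rw [ht]; exact D3_u hd u v
  have hvt : Bt d v t = 0 := by rw [ht]; exact D3_v hd u v
  have htt : Bt d t t = Bt d u u * Bt d v v / (d 0 * d 1 * d 2) := by
    have h := D3_gram hd u v
    rw [huv, ← ht] at h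
    rw [eq_div_iff hD]
    linear_combination -h
  have ht0 : Bt d t t ≠ 0 := by
    rw [htt]
    exact div_ne_zero (mul_ne_zero hu hv) hD
  rw [← htt]
  have e1 := cls_diagonal h2 hd
  have hdd : ∀ i, (![Bt d u u, Bt d v v, Bt d t t] : Fin 3 → K) i ≠ 0 := by
    intro i
    fin_cases i
    · exact hu
    · exact hv
    · exact ht0
  obtain ⟨P, hP⟩ : ∃ P : Matrix (Fin 3) (Fin 3) K, P = (Matrix.of ![u, v, t])ᵀ := ⟨_, rfl⟩
  have hc : Pᵀ * diagonal d * P = diagonal ![Bt d u u, Bt d v v, Bt d t t] := by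
    ext i j
    rw [T3_entry, hP]
    have e : ∀ i, (fun l => ((Matrix.of ![u, v, t])ᵀ : Matrix (Fin 3) (Fin 3) K) l i) =
        (![u, v, t] : Fin 3 → Fin 3 → K) i := fun i => rfl
    rw [e, e]
    fin_cases i <;> fin_cases j <;>
      simp [huv, hut, hvt, Bt_comm d v u, Bt_comm d t u, Bt_comm d t v]
  have hPd : P.det ≠ 0 := by
    intro h
    have h1 := congrArg Matrix.det hc
    rw [det_mul, h, mul_zero, det_diagonal] at h1
    exact Finset.prod_ne_zero_iff.2 (fun i _ => hdd i) h1.symm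
  have e2 := cls_eq_sum h2 hdd (A := diagonal d) ⟨P, hPd, hc⟩
  rw [e1] at e2
  rw [e2, Fin.sum_univ_three]
  rfl

/-- the form in five variables -/
def M5 (d : Fin 3 → K) (c : K) : Matrix (Fin 5) (Fin 5) K :=
  diagonal ![d 0, d 1, d 2, -1, 4 * c]

theorem M5_transpose (d : Fin 3 → K) (c : K) : (M5 d c)ᵀ = M5 d c := diagonal_transpose _

theorem M5_det (h2 : (2 : K) ≠ 0) {d : Fin 3 → K} (hd : ∀ i, d i ≠ 0) {c : K} (hc : c ≠ 0) :
    (M5 d c).det ≠ 0 := by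
  have h4 : (4 : K) ≠ 0 := by
    have : (4 : K) = 2 * 2 := by norm_num
    rw [this]
    exact mul_ne_zero h2 h2
  unfold M5
  rw [det_diagonal]
  refine Finset.prod_ne_zero_iff.2 fun i _ => ?_
  fin_cases i
  · exact hd 0
  · exact hd 1
  · exact hd 2
  · exact neg_ne_zero.2 one_ne_zero
  · exact mul_ne_zero h4 hc

theorem M5_bil (d : Fin 3 → K) (c : K) (x y : Fin 5 → K) : x ⬝ᵥ (M5 d c *ᵥ y) =
    d 0 * x 0 * y 0 + d 1 * x 1 * y 1 + d 2 * x 2 * y 2 - x 3 * y 3 + 4 * c * x 4 * y 4 := by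
  unfold M5
  simp only [dotProduct, Matrix.mulVec_diagonal, Fin.sum_univ_five, Matrix.cons_val_zero,
    Matrix.cons_val_one, Matrix.cons_val]
  ring

theorem M5_qf (d : Fin 3 → K) (c : K) (x : Fin 5 → K) : qf (M5 d c) x =
    Bt d (fun i => x (Fin.castLE (by norm_num) i)) (fun i => x (Fin.castLE (by norm_num) i)) -
      x 3 ^ 2 + 4 * c * x 4 ^ 2 := by
  unfold qf
  rw [M5_bil]
  have e0 : (Fin.castLE (by norm_num) (0 : Fin 3) : Fin 5) = 0 := rfl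
  have e1 : (Fin.castLE (by norm_num) (1 : Fin 3) : Fin 5) = 1 := rfl
  have e2 : (Fin.castLE (by norm_num) (2 : Fin 3) : Fin 5) = 2 := rfl
  simp only [Bt, e0, e1, e2]
  ring

/-- `V` -/
def tV (x : Fin 5 → K) : Fin 3 → K := fun i => x (Fin.castLE (by norm_num) i)

/-- the vector orthogonal to `V` -/
def tv (d : Fin 3 → K) (x : Fin 5 → K) (u : Fin 3 → K) : Fin 3 → K :=
  fun i => u i - Bt d u (tV x) / Bt d (tV x) (tV x) * tV x i

/-- `λ` -/
def tl (d : Fin 3 → K) (x : Fin 5 → K) (u : Fin 3 → K) : K :=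
  2 * x 3 * Bt d (tv d x u) (tv d x u)

/-- the polynomial -/
def tG (d : Fin 3 → K) (c : K) (x : Fin 5 → K) (u : Fin 3 → K) : Fin (1 + 1) → K :=
  ![c * (tl d x u * x 4) ^ 2, tl d x u * x 3]

/-- `t` -/
def tt (d : Fin 3 → K) (x : Fin 5 → K) (u : Fin 3 → K) : K := tl d x u * x 4

/-- the conditions -/
def tOk (d : Fin 3 → K) (x : Fin 5 → K) (u : Fin 3 → K) : Prop :=
  Bt d (tV x) (tV x) ≠ 0 ∧ x 3 ≠ 0 ∧ x 4 ≠ 0 ∧ Bt d (tv d x u) (tv d x u) ≠ 0

theorem tG_good (h2 : (2 : K) ≠ 0) {c : K} (hc : c ≠ 0) {d : Fin 3 → K} (hd : ∀ i, d i ≠ 0) {δ : K}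
    (hδ : d 0 * d 1 * d 2 = c * δ ^ 2) {x : Fin 5 → K} (hx : qf (M5 d c) x = 0) {u : Fin 3 → K}
    (hok : tOk d x u) :
    (hk (tG d c x u)).det ≠ 0 ∧ tt d x u ≠ 0 ∧ cf (tG d c x u) 0 = c * tt d x u ^ 2 ∧
      cls ((2 : K) • hk (tG d c x u)) + cls ((-2 : K) • hk1 (tG d c x u)) =
        cl 1 + ∑ i, cl (d i) := by
  obtain ⟨h1, h3, h4, h5⟩ := hok
  obtain ⟨V, hV⟩ : ∃ V, V = tV x := ⟨_, rfl⟩
  obtain ⟨v, hv⟩ : ∃ v, v = tv d x u := ⟨_, rfl⟩
  obtain ⟨l, hl⟩ : ∃ l, l = tl d x u := ⟨_, rfl⟩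
  have hl' : l = 2 * x 3 * Bt d v v := by rw [hl, hv]; rfl
  rw [← hV] at h1
  rw [← hv] at h5
  have hl0 : l ≠ 0 := by
    rw [hl']
    exact mul_ne_zero (mul_ne_zero h2 h3) h5
  have hδ0 : δ ≠ 0 := by
    rintro rfl
    have := mul_ne_zero (mul_ne_zero (hd 0) (hd 1)) (hd 2)
    rw [hδ] at this
    exact this (by ring)
  have hq : Bt d V V = x 3 ^ 2 - 4 * c * x 4 ^ 2 := by
    rw [M5_qf] at hx
    rw [hV]
    show Bt d (fun i => x (Fin.castLE (by norm_num) i)) (fun i => x (Fin.castLE (by norm_num) i)) = _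
    linear_combination hx
  have hVv : Bt d V v = 0 := by
    have e : Bt d V v = Bt d V u - Bt d u V / Bt d V V * Bt d V V := by
      rw [hv]
      unfold tv
      rw [← hV]
      obtain ⟨a, ha⟩ : ∃ a, a = Bt d u V / Bt d V V := ⟨_, rfl⟩
      rw [← ha]
      simp only [Bt]
      ring
    rw [e, div_mul_cancel₀ _ h1, Bt_comm d V u, sub_self]
  have hG : tG d c x u = ![c * (l * x 4) ^ 2, l * x 3] := by rw [hl]; rfl
  have ht : tt d x u = l * x 4 := by rw [hl]; rfl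
  rw [hG, ht]
  have g0 : (![c * (l * x 4) ^ 2, l * x 3] : Fin (1 + 1) → K) 0 = c * (l * x 4) ^ 2 := rfl
  have g1 : (![c * (l * x 4) ^ 2, l * x 3] : Fin (1 + 1) → K) 1 = l * x 3 := rfl
  have hΔ : (l * x 3) ^ 2 - 4 * (c * (l * x 4) ^ 2) = Bt d V V * l ^ 2 := by
    rw [hq]
    ring
  have hΔ0 : (l * x 3) ^ 2 - 4 * (c * (l * x 4) ^ 2) ≠ 0 := by
    rw [hΔ]
    exact mul_ne_zero h1 (pow_ne_zero _ hl0)
  have hg0 : c * (l * x 4) ^ 2 ≠ 0 := mul_ne_zero hc (pow_ne_zero _ (mul_ne_zero hl0 h4))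
  have hg1 : l * x 3 ≠ 0 := mul_ne_zero hl0 h3
  refine ⟨by rw [Qa_hk, g0, g1]; exact hΔ0, mul_ne_zero hl0 h4, rfl, ?_⟩
  rw [Qa_cls h2 _ (by rw [g0, g1]; exact hΔ0), Qa_cls1 h2 _ (by rw [g0]; exact hg0)
    (by rw [g1]; exact hg1) (by rw [g0, g1]; exact hΔ0), g0, g1, T3_three h2 hd hVv h1 h5]
  have c2 : cl ((l * x 3) ^ 2 - 4 * (c * (l * x 4) ^ 2)) = cl (Bt d V V) := by
    rw [hΔ, cl_mul_sq _ hl0]
  have c3 : cl (2 * (l * x 3)) = cl (Bt d v v) := by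
    rw [← cl_mul_sq (Bt d v v) (mul_ne_zero h2 h3)]
    congr 1
    rw [hl']
    ring
  have c4 : cl (2 * (l * x 3) * (c * (l * x 4) ^ 2) * ((l * x 3) ^ 2 - 4 * (c * (l * x 4) ^ 2))) =
      cl (Bt d V V * Bt d v v / (d 0 * d 1 * d 2)) := by
    rw [← cl_mul_sq (Bt d V V * Bt d v v / (d 0 * d 1 * d 2))
      (mul_ne_zero (mul_ne_zero (mul_ne_zero (mul_ne_zero (mul_ne_zero h2 h3) hc) hδ0)
        (mul_ne_zero hl0 h4)) hl0), hΔ, hδ]
    congr 1
    rw [hl']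
    field_simp
    try ring
  rw [c2, c3, c4]
  abel

/-- the converse -/
theorem tG_bwd (h2 : (2 : K) ≠ 0) {c : K} (hc : c ≠ 0) {d : Fin 3 → K} (hd : ∀ i, d i ≠ 0)
    (g : Fin (1 + 1) → K) {τ : K} (hτ : τ ≠ 0) (h0 : g 0 = c * τ ^ 2) (h1 : g 1 ≠ 0)
    (hΔ : (hk g).det ≠ 0)
    (hcl : cls ((2 : K) • hk g) + cls ((-2 : K) • hk1 g) = cl 1 + ∑ i, cl (d i)) :
    ∃ (x : Fin 5 → K) (u : Fin 3 → K), qf (M5 d c) x = 0 ∧ x ≠ 0 ∧ tOk d x u ∧ tG d c x u = g ∧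
      tt d x u = τ := by
  rw [Qa_hk] at hΔ
  have h0' : g 0 ≠ 0 := by
    rw [h0]
    exact mul_ne_zero hc (pow_ne_zero _ hτ)
  have hX : 2 * g 1 * g 0 * (g 1 ^ 2 - 4 * g 0) ≠ 0 :=
    mul_ne_zero (mul_ne_zero (mul_ne_zero h2 h1) h0') hΔ
  rw [Qa_cls h2 g hΔ, Qa_cls1 h2 g h0' h1 hΔ] at hcl
  obtain ⟨D, hD⟩ : ∃ D : Fin 3 → K, D = ![g 1 ^ 2 - 4 * g 0, 2 * g 1,
    2 * g 1 * g 0 * (g 1 ^ 2 - 4 * g 0)] := ⟨_, rfl⟩
  have hDD : ∀ i, D i ≠ 0 := by
    intro i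
    rw [hD]
    fin_cases i
    · exact hΔ
    · exact mul_ne_zero h2 h1
    · exact hX
  have e1 := cls_diagonal h2 hd
  have e2 := cls_diagonal h2 hDD
  have e3 : cls (diagonal d) = cls (diagonal D) := by
    rw [e1, e2, Fin.sum_univ_three (fun i => cl (D i)), hD]
    show ∑ i, cl (d i) = cl (g 1 ^ 2 - 4 * g 0) + cl (2 * g 1) +
      cl (2 * g 1 * g 0 * (g 1 ^ 2 - 4 * g 0))
    have f2 : cl 1 + (cl (g 1 ^ 2 - 4 * g 0) + cl (2 * g 1) +
        cl (2 * g 1 * g 0 * (g 1 ^ 2 - 4 * g 0))) =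
        cl 1 + cl (g 1 ^ 2 - 4 * g 0) +
          (cl (2 * g 1) + cl (2 * g 1 * g 0 * (g 1 ^ 2 - 4 * g 0))) := by abel
    rw [← f2] at hcl
    exact (add_left_cancel hcl).symm
  obtain ⟨P, hP, hPD⟩ := cong_of_cls h2 (A := diagonal d) (B := diagonal D)
    (diagonal_transpose _) (by rw [det_diagonal]; exact Finset.prod_ne_zero_iff.2 fun i _ => hd i)
    (diagonal_transpose _) (by rw [det_diagonal]; exact Finset.prod_ne_zero_iff.2 fun i _ => hDD i)
    e3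
  have hent : ∀ i j, Bt d (fun l => P l i) (fun l => P l j) = diagonal D i j := fun i j => by
    rw [← T3_entry, hPD]
  have D0 : D 0 = g 1 ^ 2 - 4 * g 0 := by rw [hD]; rfl
  have D1 : D 1 = 2 * g 1 := by rw [hD]; rfl
  have q0 := hent 0 0
  rw [diagonal_apply_eq, D0] at q0
  have q1 := hent 1 1
  rw [diagonal_apply_eq, D1] at q1
  have q01 := hent 0 1
  rw [diagonal_apply_ne _ (by decide)] at q01
  have hsm : ∀ (r r' : K) (x y : Fin 3 → K), Bt d (r • x) (r' • y) = r * r' * Bt d x y := by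
    intro r r' x y
    simp only [Bt, Pi.smul_apply, smul_eq_mul]
    ring
  obtain ⟨V, hV⟩ : ∃ V : Fin 3 → K, V = fun l => P l 0 := ⟨_, rfl⟩
  obtain ⟨v, hv⟩ : ∃ v : Fin 3 → K, v = fun l => P l 1 := ⟨_, rfl⟩
  rw [← hV] at q0 q01
  rw [← hv] at q1 q01
  obtain ⟨x, hx⟩ : ∃ x : Fin 5 → K, x = ![V 0, V 1, V 2, g 1, τ] := ⟨_, rfl⟩
  have hxV : tV x = V := by
    funext i
    rw [hx]
    fin_cases i <;> rfl
  have hx3 : x 3 = g 1 := by rw [hx]; rfl
  have hx4 : x 4 = τ := by rw [hx]; rfl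
  have ht2 : 2 * g 1 ≠ 0 := mul_ne_zero h2 h1
  have huV : Bt d ((2 * g 1)⁻¹ • v) V = 0 := by
    have := hsm (2 * g 1)⁻¹ 1 v V
    rw [one_smul, Bt_comm d v V, q01, mul_zero] at this
    exact this
  have htv : tv d x ((2 * g 1)⁻¹ • v) = (2 * g 1)⁻¹ • v := by
    unfold tv
    rw [hxV, huV, zero_div]
    funext i
    rw [zero_mul, sub_zero]
  have hν : Bt d (tv d x ((2 * g 1)⁻¹ • v)) (tv d x ((2 * g 1)⁻¹ • v)) = (2 * g 1)⁻¹ := by
    rw [htv, hsm, q1]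
    field_simp
  have hl : tl d x ((2 * g 1)⁻¹ • v) = 1 := by
    unfold tl
    rw [hν, hx3]
    exact mul_inv_cancel₀ ht2
  refine ⟨x, (2 * g 1)⁻¹ • v, ?_, ?_, ⟨?_, ?_, ?_, ?_⟩, ?_, ?_⟩
  · rw [M5_qf]
    show Bt d (tV x) (tV x) - x 3 ^ 2 + 4 * c * x 4 ^ 2 = 0
    rw [hxV, hx3, hx4, q0, h0]
    ring
  · intro h
    rw [h] at hx4
    exact hτ hx4.symm
  · rw [hxV, q0]
    exact hΔ
  · rw [hx3]
    exact h1
  · rw [hx4]
    exact hτ
  · rw [hν]
    exact inv_ne_zero ht2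
  · unfold tG
    rw [hl, one_mul, one_mul, hx3, hx4, ← h0]
    funext i
    fin_cases i <;> rfl
  · unfold tt
    rw [hl, one_mul, hx4]

/-- a base point -/
def HasBase2 (c : K) (R : WG K) : Prop :=
  ∃ (d : Fin 3 → K) (δ : K) (x₀ w : Fin 5 → K), (∀ i, d i ≠ 0) ∧ d 0 * d 1 * d 2 = c * δ ^ 2 ∧
    R = cl 1 + ∑ i, cl (d i) ∧ x₀ ≠ 0 ∧ qf (M5 d c) x₀ = 0 ∧ w ⬝ᵥ (M5 d c *ᵥ x₀) = 0 ∧
    qf (M5 d c) w ≠ 0

theorem hasBase2_of (h2 : (2 : K) ≠ 0) {c : K} (hc : c ≠ 0) (g : Fin (1 + 1) → K)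
    (hd : (hk g).det ≠ 0) {η : K} (hη : η ≠ 0) (h0 : g 0 = c * η ^ 2) :
    HasBase2 c (cls ((2 : K) • hk g) + cls ((-2 : K) • hk1 g)) := by
  have h4 : (4 : K) ≠ 0 := by
    have : (4 : K) = 2 * 2 := by norm_num
    rw [this]
    exact mul_ne_zero h2 h2
  have h0' : g 0 ≠ 0 := by
    rw [h0]
    exact mul_ne_zero hc (pow_ne_zero _ hη)
  rw [Qa_hk] at hd
  by_cases h1 : g 1 = 0
  · have hdd : ∀ i, (![- (4 * g 0), 1, -1] : Fin 3 → K) i ≠ 0 := by
      intro i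
      fin_cases i
      · exact neg_ne_zero.2 (mul_ne_zero h4 h0')
      · exact one_ne_zero
      · exact neg_ne_zero.2 one_ne_zero
    refine ⟨![- (4 * g 0), 1, -1], 2 * η, ![0, 1, 1, 0, 0], ![1, 0, 0, 0, 0], hdd, ?_, ?_, ?_, ?_, ?_,
      ?_⟩
    · simp only [Matrix.cons_val_zero, Matrix.cons_val_one, Matrix.cons_val]
      rw [h0]
      ring
    · have e1 : cls ((-2 : K) • hk1 g) = cl 1 + cl (-1) := by
        have h5 := cls_eq_sum h2 (A := (-2 : K) • hk1 g) (d := (![1, -1] : Fin 2 → K))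
          (by
            intro i
            fin_cases i
            · exact one_ne_zero
            · exact neg_ne_zero.2 one_ne_zero) ?_
        · rw [h5, Fin.sum_univ_two]
          rfl
        · refine ⟨!![1, 1; 1 / (8 * g 0), - (1 / (8 * g 0))], ?_, ?_⟩
          · rw [Matrix.det_fin_two]
            simp only [Matrix.cons_val_zero, Matrix.cons_val_one, Matrix.of_apply,
              Matrix.cons_val', Matrix.cons_val_fin_one]
            have h8 : (8 : K) ≠ 0 := by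
              have : (8 : K) = 2 * 4 := by norm_num
              rw [this]
              exact mul_ne_zero h2 h4
            have e : (1 : K) * -(1 / (8 * g 0)) - 1 * (1 / (8 * g 0)) = - (1 / (4 * g 0)) := by
              field_simp
              ring
            rw [e]
            exact neg_ne_zero.2 (one_div_ne_zero (mul_ne_zero h4 h0'))
          · have e00 : hk1 g 0 0 = psum g 1 := rfl
            have e01 : hk1 g 0 1 = psum g 2 := rfl
            have e10 : hk1 g 1 0 = psum g 2 := rfl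
            have e11 : hk1 g 1 1 = psum g 3 := rfl
            have h8 : (8 : K) ≠ 0 := by
              have : (8 : K) = 2 * 4 := by norm_num
              rw [this]
              exact mul_ne_zero h2 h4
            ext i j
            fin_cases i <;> fin_cases j <;>
              simp [Matrix.mul_apply, Fin.sum_univ_two, e00, e01, e10, e11, Qa_p1, Qa_p2, Qa_p3, h1]
            all_goals try field_simp
            all_goals try ring
      rw [e1, Qa_cls h2 g hd, h1, Fin.sum_univ_three]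
      have e2 : (0 : K) ^ 2 - 4 * g 0 = - (4 * g 0) := by ring
      rw [e2]
      simp only [Matrix.cons_val_zero, Matrix.cons_val_one, Matrix.cons_val]
      abel
    · intro h
      have := congrFun h 1
      simp at this
    · unfold qf
      rw [M5_bil]
      simp
    · rw [M5_bil]
      simp
    · unfold qf
      rw [M5_bil]
      simp [h4, h0']
  · have hX : 2 * g 1 * g 0 * (g 1 ^ 2 - 4 * g 0) ≠ 0 :=
      mul_ne_zero (mul_ne_zero (mul_ne_zero h2 h1) h0') hd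
    have hdd : ∀ i, (![g 1 ^ 2 - 4 * g 0, 2 * g 1, 2 * g 1 * g 0 * (g 1 ^ 2 - 4 * g 0)] :
        Fin 3 → K) i ≠ 0 := by
      intro i
      fin_cases i
      · exact hd
      · exact mul_ne_zero h2 h1
      · exact hX
    refine ⟨![g 1 ^ 2 - 4 * g 0, 2 * g 1, 2 * g 1 * g 0 * (g 1 ^ 2 - 4 * g 0)],
      2 * g 1 * η * (g 1 ^ 2 - 4 * g 0), ![1, 0, 0, g 1, η], ![0, 1, 0, 0, 0], hdd, ?_, ?_, ?_, ?_, ?_,
      ?_⟩
    · simp only [Matrix.cons_val_zero, Matrix.cons_val_one, Matrix.cons_val]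
      rw [h0]
      ring
    · rw [Qa_cls h2 g hd, Qa_cls1 h2 g h0' h1 hd, Fin.sum_univ_three]
      simp only [Matrix.cons_val_zero, Matrix.cons_val_one, Matrix.cons_val]
      abel
    · intro h
      have := congrFun h 0
      simp at this
    · unfold qf
      rw [M5_bil]
      simp only [Matrix.cons_val_zero, Matrix.cons_val_one, Matrix.cons_val]
      rw [h0]
      ring
    · rw [M5_bil]
      simp
    · unfold qf
      rw [M5_bil]
      simp [h2, h1]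

end

end NF83
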